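import Mathlib

/-!
# The finite local check
-/

namespace Pool.Agent.H229Z.Asd

/-- the point already carries the new label at stage `j` -/
def stageB (j : ℤ) (e1 : Bool) (b1 : ℕ) (e2 : Bool) (b2 : ℕ) : Bool :=
  (decide (1 ≤ j) && decide (1 ≤ b1) && decide (1 ≤ b2)) ||
  (decide (2 ≤ j) && ((decide (b1 = 0) && !e1 && decide (2 ≤ b2)) ||
    (decide (b2 = 0) && !e2 && decide (2 ≤ b1)))) ||
  (decide (3 ≤ j) && ((decide (b1 = 0) && decide (3 ≤ b2)) || (decide (b2 = 0) && decide (3 ≤ b1))))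

/-- the point lies in the outer notch -/
def notchB (e1 : Bool) (b1 : ℕ) (e2 : Bool) (b2 : ℕ) : Bool :=
  !((decide (4 ≤ b1) && decide (4 ≤ b2)) ||
    (decide (b1 < 4) && decide ((if e1 then 6 else 5) ≤ b2)) ||
    (decide (b2 < 4) && decide ((if e2 then 6 else 5) ≤ b1)))

def absA (o1 o2 : Bool) (j : ℤ) (e1 : Bool) (b1 : ℕ) (e2 : Bool) (b2 : ℕ) : ℕ × Bool × Bool :=
  if stageB j e1 b1 e2 b2 then (0, e1, e2) else (1, (e1 || !o1), (e2 || !o2))

def absB (o1 o2 : Bool) (j : ℤ) (e1 : Bool) (b1 : ℕ) (e2 : Bool) (b2 : ℕ) : ℕ × Bool × Bool :=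
  if stageB j e1 b1 e2 b2 && !notchB e1 b1 e2 b2 then (0, e1, e2)
  else if stageB 3 e1 b1 e2 b2 then (1, e1, e2) else (2, (e1 || !o1), (e2 || !o2))

def modes : List (List (Bool × ℕ)) :=
  [(true, 0), (false, 0)] ::
    ([true, false].flatMap fun e => (List.range 7).map fun c => [(e, c), (e, c + 1)])

def labs (f : ℤ → Bool → ℕ → Bool → ℕ → ℕ × Bool × Bool) (j0 : ℤ) (m1 m2 : List (Bool × ℕ)) :
    List (ℕ × Bool × Bool) :=
  [j0, j0 + 1].flatMap fun j => m1.flatMap fun s => m2.map fun t => f j s.1 s.2 t.1 t.2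

theorem chk : ∀ o ∈ [(false, false), (true, false), (false, true)], ∀ j0 ∈ [(0 : ℤ), 1, 2],
    ∀ m1 ∈ modes, ∀ m2 ∈ modes,
      (labs (absA o.1 o.2) j0 m1 m2).dedup.length ≤ 3 ∧
      (labs (absB o.1 o.2) j0 m1 m2).dedup.length ≤ 3 := by
  decide +kernel

theorem mem_labs {f : ℤ → Bool → ℕ → Bool → ℕ → ℕ × Bool × Bool} {j0 j : ℤ}
    {m1 m2 : List (Bool × ℕ)} {e1 e2 : Bool} {b1 b2 : ℕ} (hj : j = j0 ∨ j = j0 + 1)
    (h1 : (e1, b1) ∈ m1) (h2 : (e2, b2) ∈ m2) : f j e1 b1 e2 b2 ∈ labs f j0 m1 m2 := by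
  unfold labs
  simp only [List.mem_flatMap, List.mem_map]
  exact ⟨j, by simpa using hj, (e1, b1), h1, (e2, b2), h2, rfl⟩

theorem stageB_nonpos {j : ℤ} (hj : j ≤ 0) (e1 : Bool) (b1 : ℕ) (e2 : Bool) (b2 : ℕ) :
    stageB j e1 b1 e2 b2 = false := by
  have h1 : ¬ (1 ≤ j) := by omega
  have h2 : ¬ (2 ≤ j) := by omega
  have h3 : ¬ (3 ≤ j) := by omega
  simp [stageB, h1, h2, h3]

theorem stageB_three {j : ℤ} (hj : 3 ≤ j) (e1 : Bool) (b1 : ℕ) (e2 : Bool) (b2 : ℕ) :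
    stageB j e1 b1 e2 b2 = stageB 3 e1 b1 e2 b2 := by
  have h1 : (1 ≤ j) := by omega
  have h2 : (2 ≤ j) := by omega
  simp [stageB, h1, h2, hj]

theorem stageB_six {e1 e2 : Bool} {b1 b2 : ℕ} (h : b1 = 6 ∨ b2 = 6) :
    stageB 3 e1 b1 e2 b2 = true := by
  rcases h with rfl | rfl
  · rcases Nat.eq_zero_or_pos b2 with rfl | h
    · simp [stageB]
    · have : 1 ≤ b2 := h
      simp [stageB, this]
  · rcases Nat.eq_zero_or_pos b1 with rfl | h
    · simp [stageB]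
    · have : 1 ≤ b1 := h
      simp [stageB, this]

theorem notchB_six {e1 e2 : Bool} {b1 b2 : ℕ} (h : b1 = 6 ∨ b2 = 6) :
    notchB e1 b1 e2 b2 = false := by
  rcases h with rfl | rfl
  · rcases lt_or_ge b2 4 with h | h
    · cases e2 <;> simp [notchB, h]
    · simp [notchB, h]
  · rcases lt_or_ge b1 4 with h | h
    · cases e1 <;> simp [notchB, h]
    · simp [notchB, h]

theorem stageB_congr {j : ℤ} {e1 e1' e2 e2' : Bool} {b1 b2 : ℕ} (h1 : b1 = 6 ∨ e1 = e1')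
    (h2 : b2 = 6 ∨ e2 = e2') : stageB j e1 b1 e2 b2 = stageB j e1' b1 e2' b2 := by
  rcases h1 with rfl | rfl <;> rcases h2 with rfl | rfl <;> simp [stageB]

theorem stage_of_not_notch {e1 e2 : Bool} {b1 b2 : ℕ} (h : notchB e1 b1 e2 b2 = false) :
    stageB 3 e1 b1 e2 b2 = true := by
  cases e1 <;> cases e2 <;> simp [notchB, stageB] at h ⊢ <;> omega

theorem modes_zero : [(true, 0), (false, 0)] ∈ modes := by decide

theorem modes_some (e : Bool) (c : ℕ) (hc : c ≤ 6) : [(e, c), (e, c + 1)] ∈ modes := by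
  unfold modes
  refine List.mem_cons_of_mem _ ?_
  simp only [List.mem_flatMap, List.mem_map, List.mem_range]
  exact ⟨e, by cases e <;> simp, c, by omega, rfl⟩

/-- pairwise compatible states lie in one mode -/
theorem exists_mode {ι : Type*} (S : Set ι) (ee : ι → Bool) (bb : ι → ℕ)
    (h6 : ∀ P ∈ S, bb P ≤ 6) (h1 : ∀ P ∈ S, ∀ Q ∈ S, bb P ≤ bb Q + 1)
    (h2 : ∀ P ∈ S, ∀ Q ∈ S, 1 ≤ bb P → ee P = ee Q) :
    ∃ md ∈ modes, ∀ P ∈ S, (ee P, bb P) ∈ md := by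
  classical
  by_cases h : ∃ P ∈ S, 1 ≤ bb P
  · obtain ⟨P0, hP0, hb⟩ := h
    have hex : ∃ c, ∃ P ∈ S, bb P = c := ⟨_, P0, hP0, rfl⟩
    obtain ⟨Q, hQ, hc⟩ := Nat.find_spec hex
    refine ⟨[(ee P0, Nat.find hex), (ee P0, Nat.find hex + 1)],
      modes_some _ _ (hc ▸ h6 Q hQ), fun P hP => ?_⟩
    have e1 : ee P0 = ee P := h2 P0 hP0 P hP hb
    have e2 : Nat.find hex ≤ bb P := Nat.find_min' hex ⟨P, hP, rfl⟩
    have e3 := h1 P hP Q hQ
    rw [hc] at e3
    rw [← e1]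
    rcases Nat.eq_or_lt_of_le e2 with h | h
    · rw [← h]; simp
    · have : bb P = Nat.find hex + 1 := by omega
      rw [this]; simp
  · refine ⟨_, modes_zero, fun P hP => ?_⟩
    have : bb P = 0 := by
      by_contra hne
      exact h ⟨P, hP, by omega⟩
    rw [this]
    cases ee P <;> simp

/-- a function that factors through a list of at most three values takes at most three values -/
theorem encard_le_three {ι α β : Type*} [DecidableEq β] (S : Set ι) (f : ι → α) (g : ι → β)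
    (L : List β) (hL : L.dedup.length ≤ 3) (hg : ∀ P ∈ S, g P ∈ L)
    (hfg : ∀ P ∈ S, ∀ Q ∈ S, g P = g Q → f P = f Q) : (f '' S).encard ≤ 3 := by
  classical
  rcases S.eq_empty_or_nonempty with rfl | ⟨P0, hP0⟩
  · simp
  let φ : β → α := fun b => if h : ∃ P ∈ S, g P = b then f h.choose else f P0
  have hsub : f '' S ⊆ φ '' (L.toFinset : Set β) := by
    rintro _ ⟨P, hP, rfl⟩
    refine ⟨g P, by simpa using hg P hP, ?_⟩
    have h : ∃ Q ∈ S, g Q = g P := ⟨P, hP, rfl⟩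
    simp only [φ, dif_pos h]
    exact hfg _ h.choose_spec.1 P hP h.choose_spec.2
  calc (f '' S).encard ≤ (φ '' (L.toFinset : Set β)).encard := Set.encard_le_encard hsub
    _ ≤ (L.toFinset : Set β).encard := Set.encard_image_le _ _
    _ = (L.toFinset.card : ℕ∞) := Set.encard_coe_eq_coe_finsetCard _
    _ ≤ 3 := by
      rw [List.card_toFinset]
      exact_mod_cast hL

end Pool.Agent.H229Z.Asd
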