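import Mathlib

/-!
# Asymptotic dimension of real hyperbolic space modulo a family of growth functions
-/

open Filter Topology

namespace Pool.Agent.H229Z.Asd

/-- Real hyperbolic space of dimension `k + 1`, upper half-space model: the points of `ℝ^(k+1)`
with positive last coordinate. -/
def Hyp (k : ℕ) : Type := {p : Fin (k + 1) → ℝ // 0 < p (Fin.last k)}

/-- The hyperbolic distance: `cosh d(p, q) = 1 + |p - q|² / (2 p_last q_last)`. -/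
noncomputable def hdist {k : ℕ} (p q : Hyp k) : ℝ :=
  Real.arcosh (1 + (∑ i, (p.1 i - q.1 i) ^ 2) / (2 * p.1 (Fin.last k) * q.1 (Fin.last k)))

/-- A uniformly discrete net: an `ε`-separated, `R`-dense subset. -/
def IsNet {k : ℕ} (Z : Set (Hyp k)) : Prop :=
  (∃ ε : ℝ, 0 < ε ∧ ∀ p ∈ Z, ∀ q ∈ Z, p ≠ q → ε ≤ hdist p q) ∧
    ∃ R : ℝ, ∀ p : Hyp k, ∃ q ∈ Z, hdist p q ≤ R

/-- The growth function of `U` is at most `f`: for `x ∈ U` and `t ≥ 0` the set `U ∩ B(x, t)` has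
at most `f t` points. -/
def GrowthLE {k : ℕ} (U : Set (Hyp k)) (f : ℝ → ℝ) : Prop :=
  ∀ x ∈ U, ∀ t : ℝ, 0 ≤ t →
    {y ∈ U | hdist x y ≤ t}.Finite ∧ (({y ∈ U | hdist x y ≤ t}.ncard : ℕ) : ℝ) ≤ f t

/-- The family `o(poly(d))`: non-decreasing `f : [0, ∞) → [0, ∞)` with `f(t) / t^d → 0`. -/
def oPoly (d : ℕ) : Set (ℝ → ℝ) :=
  {f | MonotoneOn f (Set.Ici 0) ∧ (∀ t : ℝ, 0 ≤ t → 0 ≤ f t) ∧
    Tendsto (fun t : ℝ => f t / t ^ d) atTop (𝓝 0)}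

/-- `asdim_F(Z) ≤ n`: for every `r > 0` there is a cover of `Z` by subsets of `Z` such that every
`r`-ball of `Z` meets at most `n + 1` members and one `f ∈ F` bounds the growth of all members. -/
def AsdimLE {k : ℕ} (F : Set (ℝ → ℝ)) (Z : Set (Hyp k)) (n : ℕ) : Prop :=
  ∀ r : ℝ, 0 < r → ∃ C : Set (Set (Hyp k)),
    (∀ U ∈ C, U ⊆ Z) ∧ (∀ z ∈ Z, ∃ U ∈ C, z ∈ U) ∧
    (∀ z ∈ Z, {U ∈ C | ∃ y ∈ U, hdist z y ≤ r}.encard ≤ (n : ℕ∞) + 1) ∧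
    ∃ f ∈ F, ∀ U ∈ C, GrowthLE U f

/-- `asdim_F(Z)`: the least `n` with `asdim_F(Z) ≤ n` (and `∞` if there is none). -/
noncomputable def asdim {k : ℕ} (F : Set (ℝ → ℝ)) (Z : Set (Hyp k)) : ℕ∞ :=
  sInf {m : ℕ∞ | ∃ n : ℕ, m = n ∧ AsdimLE F Z n}

end Pool.Agent.H229Z.Asd
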