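import Mathlib

/-!
# Nested one-dimensional grids
-/

namespace Pool.Agent.H229Z.Asd

variable (K : ℕ)

/-- the mesh of generation `n` -/
noncomputable def ms (n : ℤ) : ℝ := (K : ℝ) ^ (-(3 * n))

/-- the offset -/
noncomputable def th : ℝ := 1 / ((K : ℝ) ^ 3 - 1)

/-- the grid of generation `n` -/
def G (n : ℤ) : Set ℝ := {w | ∃ i : ℤ, w = ms K n * (i + th K)}

/-- nearest grid point -/
noncomputable def nr (n : ℤ) (x : ℝ) : ℝ := ms K n * (round (x / ms K n - th K) + th K)

/-- index of the interval containing `x` -/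
noncomputable def ix (n : ℤ) (x : ℝ) : ℤ := ⌊x / ms K n - th K⌋

/-- distance to the grid -/
noncomputable def D (n : ℤ) (x : ℝ) : ℝ := |x - nr K n x|

/-- side of the nearest grid point -/
noncomputable def sg (n : ℤ) (x : ℝ) : Bool := decide (nr K n x ≤ x)

open Classical in
/-- the band of the distance `d` at height `h` -/
noncomputable def band (d h : ℝ) : ℕ := Nat.findGreatest (fun a => (K : ℝ) ^ a * h ≤ d) 6

/-- the band of `x` for the grid of generation `n` -/
noncomputable def bd (n : ℤ) (x h : ℝ) : ℕ := band K (D K n x) h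

variable {K}

theorem K_pos (hK : 8 ≤ K) : (0 : ℝ) < K := by
  have : (8 : ℝ) ≤ K := by exact_mod_cast hK
  linarith

theorem K_ge (hK : 8 ≤ K) : (8 : ℝ) ≤ K := by exact_mod_cast hK

theorem ms_pos (hK : 8 ≤ K) (n : ℤ) : 0 < ms K n := zpow_pos (K_pos hK) _

theorem ms_pred (hK : 8 ≤ K) (n : ℤ) : ms K (n - 1) = (K : ℝ) ^ 3 * ms K n := by
  unfold ms
  rw [show -(3 * (n - 1)) = (3 : ℤ) + -(3 * n) by ring, zpow_add₀ (K_pos hK).ne']
  norm_cast

theorem ms_anti (hK : 8 ≤ K) {k n : ℤ} (h : k ≤ n) : ms K n ≤ ms K k := by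
  unfold ms
  exact zpow_le_zpow_right₀ (by linarith [K_ge hK]) (by omega)

theorem ms_lt (hK : 8 ≤ K) {k n : ℤ} (h : ms K n < ms K k) : k < n := by
  by_contra hc
  have := ms_anti hK (not_lt.mp hc)
  linarith

theorem K3_ge (hK : 8 ≤ K) : (512 : ℝ) ≤ (K : ℝ) ^ 3 := by
  have := pow_le_pow_left₀ (by norm_num : (0 : ℝ) ≤ 8) (K_ge hK) 3
  linarith

theorem th_pos (hK : 8 ≤ K) : 0 < th K := by
  unfold th
  have := K3_ge hK
  apply one_div_pos.mpr
  linarith

theorem th_le (hK : 8 ≤ K) : th K ≤ 1 / 2 := by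
  unfold th
  have := K3_ge hK
  apply one_div_le_one_div_of_le <;> linarith

theorem th_mul (hK : 8 ≤ K) : (K : ℝ) ^ 3 * th K = 1 + th K := by
  unfold th
  have := K3_ge hK
  have h : (K : ℝ) ^ 3 - 1 ≠ 0 := by linarith
  field_simp
  ring

theorem G_pred (hK : 8 ≤ K) {n : ℤ} {w : ℝ} (h : w ∈ G K (n - 1)) : w ∈ G K n := by
  obtain ⟨i, rfl⟩ := h
  refine ⟨(K : ℤ) ^ 3 * i + 1, ?_⟩
  rw [ms_pred hK]
  push_cast
  have := th_mul hK
  linear_combination ms K n * this

theorem G_mono (hK : 8 ≤ K) {k n : ℤ} (h : k ≤ n) {w : ℝ} (hw : w ∈ G K k) : w ∈ G K n := by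
  induction n, h using Int.leInduction with
  | base => exact hw
  | succ n _ ih => exact G_pred hK (by simpa using ih)

theorem G_sep (hK : 8 ≤ K) {n : ℤ} {w w' : ℝ} (hw : w ∈ G K n) (hw' : w' ∈ G K n)
    (hne : w ≠ w') : ms K n ≤ |w - w'| := by
  obtain ⟨i, rfl⟩ := hw
  obtain ⟨j, rfl⟩ := hw'
  have hij : i ≠ j := by
    rintro rfl
    exact hne rfl
  have h1 : (1 : ℝ) ≤ |(i : ℝ) - j| := by
    have : (1 : ℤ) ≤ |i - j| := Int.one_le_abs (sub_ne_zero.mpr hij)
    exact_mod_cast this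
  have hm := ms_pos hK n
  rw [show ms K n * (i + th K) - ms K n * (j + th K) = ms K n * ((i : ℝ) - j) by ring, abs_mul,
    abs_of_pos hm]
  nlinarith

theorem nr_mem (n : ℤ) (x : ℝ) : nr K n x ∈ G K n := ⟨_, rfl⟩

theorem D_le (hK : 8 ≤ K) {n : ℤ} (x : ℝ) {w : ℝ} (hw : w ∈ G K n) : D K n x ≤ |x - w| := by
  obtain ⟨i, rfl⟩ := hw
  have hm := ms_pos hK n
  have h := round_le (x / ms K n - th K) i
  unfold D nr
  have e : ∀ z : ℝ, x - ms K n * (z + th K) = ms K n * (x / ms K n - th K - z) := by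
    intro z
    field_simp
    ring
  rw [e, e, abs_mul, abs_mul]
  exact mul_le_mul_of_nonneg_left h (abs_nonneg _)

theorem D_anti (hK : 8 ≤ K) {k n : ℤ} (h : k ≤ n) (x : ℝ) : D K n x ≤ D K k x :=
  D_le hK x (G_mono hK h (nr_mem k x))

theorem nr_eq (hK : 8 ≤ K) {n : ℤ} {x w : ℝ} (hw : w ∈ G K n) (h : |x - w| < ms K n / 2) :
    nr K n x = w := by
  by_contra hne
  have h1 := G_sep hK (nr_mem n x) hw hne
  have h2 := D_le hK x hw
  unfold D at h2
  have h3 : |nr K n x - w| ≤ |x - nr K n x| + |x - w| := by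
    rw [show nr K n x - w = -(x - nr K n x) + (x - w) by ring]
    exact (abs_add_le _ _).trans (by rw [abs_neg])
  linarith

theorem D_lip (hK : 8 ≤ K) (n : ℤ) (x x' : ℝ) : D K n x ≤ D K n x' + |x - x'| := by
  have h := D_le hK x (nr_mem n x')
  unfold D at h ⊢
  have h3 : |x - nr K n x'| ≤ |x' - nr K n x'| + |x - x'| := by
    rw [show x - nr K n x' = (x' - nr K n x') + (x - x') by ring]
    exact abs_add_le _ _
  linarith

theorem ix_le (hK : 8 ≤ K) (n : ℤ) (x : ℝ) : ms K n * (ix K n x + th K) ≤ x := by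
  have hm := ms_pos hK n
  have h := Int.floor_le (x / ms K n - th K)
  unfold ix
  have : x = ms K n * (x / ms K n) := by field_simp
  nlinarith

theorem lt_ix (hK : 8 ≤ K) (n : ℤ) (x : ℝ) : x < ms K n * (ix K n x + 1 + th K) := by
  have hm := ms_pos hK n
  have h := Int.lt_floor_add_one (x / ms K n - th K)
  unfold ix
  have : x = ms K n * (x / ms K n) := by field_simp
  nlinarith

theorem ix_unique (hK : 8 ≤ K) {n i : ℤ} {x : ℝ} (h1 : ms K n * (i + th K) ≤ x)
    (h2 : x < ms K n * (i + 1 + th K)) : ix K n x = i := by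
  have hm := ms_pos hK n
  unfold ix
  rw [Int.floor_eq_iff]
  constructor
  · rw [le_sub_iff_add_le, le_div_iff₀ hm]
    linarith
  · rw [sub_lt_iff_lt_add, div_lt_iff₀ hm]
    linarith

theorem ix_eq_of (hK : 8 ≤ K) {n : ℤ} {x x' : ℝ} (h : |x - x'| < D K n x) :
    ix K n x = ix K n x' := by
  symm
  have a1 := ix_le hK n x
  have a2 := lt_ix hK n x
  have b1 := D_le hK x (w := ms K n * (ix K n x + th K)) ⟨_, rfl⟩
  have b2 := D_le hK x (w := ms K n * (ix K n x + 1 + th K)) ⟨ix K n x + 1, by push_cast; ring⟩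
  rw [abs_of_nonneg (by linarith)] at b1
  rw [abs_of_neg (by linarith)] at b2
  have := abs_lt.mp (h.trans_le (le_refl _))
  apply ix_unique hK <;> linarith [this.1, this.2]

theorem ix_line (hK : 8 ≤ K) {n i : ℤ} {x : ℝ} (h : |x - ms K n * (i + th K)| < ms K n) :
    ix K n x = if ms K n * (i + th K) ≤ x then i else i - 1 := by
  have := abs_lt.mp h
  split_ifs with hx
  · apply ix_unique hK hx
    linarith [this.2]
  · apply ix_unique hK
    · push_cast
      linarith [this.1]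
    · push_cast
      linarith

theorem birth (hK : 8 ≤ K) (w : ℝ) : ∃ k0 : ℤ, ∀ k : ℤ, w ∈ G K k → k0 ≤ k := by
  have ht := th_pos hK
  have ht2 := th_le hK
  obtain ⟨N, hN⟩ := pow_unbounded_of_one_lt (|w| / th K) (by linarith [K_ge hK] : (1 : ℝ) < K)
  refine ⟨-(N : ℤ), fun k hk => ?_⟩
  by_contra hc
  obtain ⟨i, hi⟩ := hk
  have h1 : (K : ℝ) ^ N ≤ ms K k := by
    unfold ms
    rw [← zpow_natCast]
    exact zpow_le_zpow_right₀ (by linarith [K_ge hK]) (by omega)
  have h2 : th K ≤ |(i : ℝ) + th K| := by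
    rcases le_or_gt 0 i with h | h
    · have : (0 : ℝ) ≤ i := by exact_mod_cast h
      rw [abs_of_nonneg (by linarith)]
      linarith
    · have : (i : ℝ) ≤ -1 := by exact_mod_cast (show i ≤ -1 by omega)
      rw [abs_of_neg (by linarith)]
      linarith
  have h3 : |w| = ms K k * |(i : ℝ) + th K| := by
    rw [hi, abs_mul, abs_of_pos (ms_pos hK k)]
  rw [div_lt_iff₀ ht] at hN
  have hm := ms_pos hK k
  nlinarith

theorem band_le (d h : ℝ) : band K d h ≤ 6 := by
  classical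
  exact Nat.findGreatest_le 6

theorem le_band (hK : 8 ≤ K) {d h : ℝ} (hh : 0 < h) {a : ℕ} (h1 : 1 ≤ a) (h6 : a ≤ 6) :
    a ≤ band K d h ↔ (K : ℝ) ^ a * h ≤ d := by
  classical
  constructor
  · intro ha
    have hne : band K d h ≠ 0 := by omega
    have hs : (K : ℝ) ^ (band K d h) * h ≤ d :=
      Nat.findGreatest_of_ne_zero (P := fun a => (K : ℝ) ^ a * h ≤ d) (n := 6) rfl hne
    have : (K : ℝ) ^ a ≤ (K : ℝ) ^ (band K d h) :=
      pow_le_pow_right₀ (by linarith [K_ge hK]) ha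
    nlinarith
  · intro ha
    exact Nat.le_findGreatest (P := fun a => (K : ℝ) ^ a * h ≤ d) h6 ha

theorem band_eq_six (hK : 8 ≤ K) {d h : ℝ} (hh : 0 < h) :
    band K d h = 6 ↔ (K : ℝ) ^ 6 * h ≤ d := by
  rw [← le_band hK hh (by norm_num) le_rfl]
  have := band_le (K := K) d h
  omega

theorem band_compat (hK : 8 ≤ K) {F d d' h h' : ℝ} (hF : 1 ≤ F) (hFK : 2 * F ≤ K) (hh : 0 < h)
    (hh' : 0 < h') (h1 : h' ≤ F * h) (h2 : d ≤ d' + F * h) : band K d h ≤ band K d' h' + 1 := by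
  by_contra hc
  have h6 := band_le (K := K) d h
  set a := band K d' h' + 1 with ha
  have e1 : (K : ℝ) ^ (a + 1) * h ≤ d := (le_band hK hh (by omega) (by omega)).mp (by omega)
  have e2 : ¬ (K : ℝ) ^ a * h' ≤ d' := by
    rw [← le_band hK hh' (by omega) (by omega)]
    omega
  apply e2
  have hk1 : (1 : ℝ) ≤ (K : ℝ) ^ a := one_le_pow₀ (by linarith [K_ge hK])
  rw [pow_succ] at e1
  have e3 : (K : ℝ) ^ a * h' ≤ (K : ℝ) ^ a * (F * h) := mul_le_mul_of_nonneg_left h1 (by linarith)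
  have e4 : (K : ℝ) ^ a * (2 * F) * h ≤ (K : ℝ) ^ a * K * h := by gcongr
  have e5 : F * h ≤ (K : ℝ) ^ a * (F * h) := le_mul_of_one_le_left (by positivity) hk1
  nlinarith

open Classical in
/-- the end point of the interval `i` of generation `g` that lies in the previous grid -/
noncomputable def cd (K : ℕ) (g i : ℤ) : Option (ℝ × Bool) :=
  if ms K g * (i + th K) ∈ G K (g - 1) then some (ms K g * (i + th K), true)
  else if ms K g * (i + 1 + th K) ∈ G K (g - 1) then some (ms K g * (i + 1 + th K), false)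
  else none

theorem cd_near (hK : 8 ≤ K) {g : ℤ} {x w : ℝ} (hw : w ∈ G K (g - 1)) (h : |x - w| < ms K g) :
    cd K g (ix K g x) = some (w, decide (w ≤ x)) := by
  obtain ⟨i, hi⟩ := G_pred hK hw
  have h' := h
  rw [hi] at h'
  rw [ix_line hK h']
  unfold cd
  by_cases hx : w ≤ x
  · have hx' : ms K g * (i + th K) ≤ x := hi ▸ hx
    rw [if_pos hx', ← hi, if_pos hw]
    simp [hx]
  · have hx' : ¬ ms K g * (i + th K) ≤ x := hi ▸ hx
    rw [if_neg hx']
    have e1 : ms K g * (((i - 1 : ℤ) : ℝ) + 1 + th K) = w := by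
      rw [hi]; push_cast; ring
    have e2 : ms K g * (((i - 1 : ℤ) : ℝ) + th K) = w - ms K g := by
      rw [hi]; push_cast; ring
    have hm := ms_pos hK g
    have hn : ¬ (ms K g * (((i - 1 : ℤ) : ℝ) + th K) ∈ G K (g - 1)) := by
      rw [e2]
      intro hc
      have := G_sep hK hc hw (by linarith)
      rw [ms_pred hK, show w - ms K g - w = -ms K g by ring, abs_neg, abs_of_pos hm] at this
      have := K3_ge hK
      nlinarith
    rw [if_neg hn, e1, if_pos hw]
    simp [hx]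

theorem cd_some (hK : 8 ≤ K) {g : ℤ} {x : ℝ} {a : ℝ × Bool} (h : cd K g (ix K g x) = some a) :
    |x - a.1| ≤ ms K g := by
  have a1 := ix_le hK g x
  have a2 := lt_ix hK g x
  have hm := ms_pos hK g
  unfold cd at h
  split_ifs at h with h1 h2
  · rw [← Option.some.inj h, abs_le]
    constructor <;> simp only <;> linarith
  · rw [← Option.some.inj h, abs_le]
    constructor <;> simp only <;> linarith

end Pool.Agent.H229Z.Asd
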