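import Pool.Agent.H229Z.Asd.Mult

/-!
# Quadratic growth of the pieces
-/

namespace Pool.Agent.H229Z.Asd

variable {K : ℕ}

theorem lab_center (hK : 8 ≤ K) (l : Label) : ∃ V1 V2 : ℝ, ∀ (g : ℤ) (x y : ℝ),
    lab K g (ix K g x) (ix K g y) = l → |x - V1| ≤ ms K g ∧ |y - V2| ≤ ms K g := by
  have key : ∀ (g : ℤ) (x : ℝ), |x - ms K g * (ix K g x + th K)| ≤ ms K g := by
    intro g x
    have a1 := ix_le hK g x
    have a2 := lt_ix hK g x
    have hm := ms_pos hK g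
    rw [abs_le]
    constructor <;> linarith
  rcases l with ⟨g0, i1, i2⟩ | ⟨a, b⟩
  · refine ⟨ms K g0 * (i1 + th K), ms K g0 * (i2 + th K), fun g x y h => ?_⟩
    have h' : (g, ix K g x, ix K g y) = (g0, i1, i2) := by
      unfold lab at h
      split at h
      · exact absurd h (by simp)
      · exact Sum.inl.inj h
    simp only [Prod.mk.injEq] at h'
    obtain ⟨rfl, rfl, rfl⟩ := h'
    exact ⟨key g x, key g y⟩
  · refine ⟨a.1, b.1, fun g x y h => ?_⟩
    unfold lab at h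
    split at h
    · rename_i a' b' h1 h2
      have h' := Sum.inr.inj h
      simp only [Prod.mk.injEq] at h'
      obtain ⟨rfl, rfl⟩ := h'
      exact ⟨cd_some hK h1, cd_some hK h2⟩
    · exact absurd h (by simp)

theorem near_of_bd (hK : 8 ≤ K) {g : ℤ} {x h : ℝ} (hh : 0 < h) (hb : bd K g x h ≠ 6) :
    ∃ w ∈ G K g, |x - w| < (K : ℝ) ^ 6 * h := by
  refine ⟨nr K g x, nr_mem g x, ?_⟩
  by_contra hc
  exact hb ((band_eq_six hK hh).mpr (not_lt.mp hc))

theorem idx_bound (hK : 8 ≤ K) {g : ℤ} {w V : ℝ} (hw : w ∈ G K (g + 1))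
    (h : |w - V| ≤ 2 * ms K g) :
    ∃ u : ℤ, |u| ≤ 2 * (K : ℤ) ^ 3 + 1 ∧
      w = ms K (g + 1) * (((ix K (g + 1) V + u : ℤ) : ℝ) + th K) := by
  obtain ⟨i, hi⟩ := hw
  refine ⟨i - ix K (g + 1) V, ?_, by rw [hi]; push_cast; ring⟩
  have a1 := ix_le hK (g + 1) V
  have a2 := lt_ix hK (g + 1) V
  have hm := ms_pos hK (g + 1)
  have e : ms K g = (K : ℝ) ^ 3 * ms K (g + 1) := by
    have := ms_pred hK (g + 1)
    rwa [show g + 1 - 1 = g by ring] at this
  rw [e, hi, abs_le] at h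
  have b1 : ((i : ℝ) - ix K (g + 1) V) ≤ 2 * (K : ℝ) ^ 3 + 1 := by
    by_contra hc
    push Not at hc
    nlinarith [h.2]
  have b2 : -(2 * (K : ℝ) ^ 3 + 1) ≤ ((i : ℝ) - ix K (g + 1) V) := by
    by_contra hc
    push Not at hc
    nlinarith [h.1]
  have : |((i : ℝ) - ix K (g + 1) V)| ≤ 2 * (K : ℝ) ^ 3 + 1 := abs_le.mpr ⟨b2, b1⟩
  exact_mod_cast this

/-- the anchor point -/
noncomputable def anc (K : ℕ) (V : ℝ) : Option (ℤ × ℤ) → ℝ
  | none => V
  | some (g, u) => ms K (g + 1) * (((ix K (g + 1) V + u : ℤ) : ℝ) + th K)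

theorem anchor (hK : 8 ≤ K) (l : Label) : ∃ V1 V2 : ℝ, ∀ x y h : ℝ, 0 < h → Lam K x y h = l →
    (|x - V1| ≤ (K : ℝ) ^ 14 * h ∧ |y - V2| ≤ (K : ℝ) ^ 14 * h) ∨
    ∃ g u1 u2 : ℤ, ms K (g + 1) < max |x - V1| |y - V2| ∧ max |x - V1| |y - V2| ≤ ms K g ∧
      h ≤ max |x - V1| |y - V2| ∧ |u1| ≤ 2 * (K : ℤ) ^ 3 + 1 ∧ |u2| ≤ 2 * (K : ℤ) ^ 3 + 1 ∧
      |x - anc K V1 (some (g, u1))| ≤ (K : ℝ) ^ 14 * h ∧
      |y - anc K V2 (some (g, u2))| ≤ (K : ℝ) ^ 14 * h := by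
  obtain ⟨V1, V2, hV⟩ := lab_center hK l
  refine ⟨V1, V2, fun x y h hh hl => ?_⟩
  obtain ⟨c1, c2⟩ := hV _ x y hl
  have hk := K_ge hK
  have hk0 := K_pos hK
  set g0 := gen K x y h with hg0
  set ρ := max |x - V1| |y - V2| with hρ
  obtain ⟨n, hn1, hn2⟩ : ∃ n : ℤ, 3 * n + 8 ≤ tm K h ∧ tm K h ≤ 3 * n + 10 :=
    ⟨(tm K h - 8) / 3, by omega, by omega⟩
  have t1 : ms K (n - 1) ≤ (K : ℝ) ^ 14 * h := by
    have a1 := lt_tm hK hh
    have a2 : (K : ℝ) ^ (-(3 * (n - 1)) - 14) ≤ (K : ℝ) ^ (-(tm K h + 1)) :=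
      zpow_le_zpow_right₀ (by linarith) (by omega)
    rw [zpow_sub₀ hk0.ne', div_le_iff₀ (zpow_pos hk0 _)] at a2
    have a3 : (K : ℝ) ^ (14 : ℤ) = (K : ℝ) ^ 14 := by norm_cast
    rw [a3] at a2
    unfold ms
    have : (0 : ℝ) < (K : ℝ) ^ 14 := by positivity
    nlinarith
  have t2 : (K : ℝ) ^ 6 * h ≤ ms K (n - 1) := by
    have a1 := tm_le hK hh
    have a2 : (K : ℝ) ^ (-tm K h) ≤ (K : ℝ) ^ (-(3 * (n - 1)) - 6) :=
      zpow_le_zpow_right₀ (by linarith) (by omega)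
    rw [zpow_sub₀ hk0.ne', le_div_iff₀ (zpow_pos hk0 _)] at a2
    have a3 : (K : ℝ) ^ (6 : ℤ) = (K : ℝ) ^ 6 := by norm_cast
    rw [a3] at a2
    unfold ms
    have : (0 : ℝ) < (K : ℝ) ^ 6 := by positivity
    nlinarith
  have t3 : h ≤ (K : ℝ) ^ 6 * h := le_mul_of_one_le_left hh.le (one_le_pow₀ (by linarith))
  have t4 : (K : ℝ) ^ 6 * h ≤ (K : ℝ) ^ 14 * h :=
    mul_le_mul_of_nonneg_right (pow_le_pow_right₀ (by linarith) (by norm_num)) hh.le
  by_cases hcase : ρ ≤ ms K (n - 1)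
  · left
    exact ⟨(le_max_left _ _).trans (hcase.trans t1), (le_max_right _ _).trans (hcase.trans t1)⟩
  right
  push Not at hcase
  have hρ0 : ρ ≤ ms K g0 := max_le c1 c2
  have hg0n : g0 < n - 1 := ms_lt hK (hcase.trans_le hρ0)
  obtain ⟨g, hg, hgmax⟩ := Int.exists_greatest_of_bdd (P := fun g => ρ ≤ ms K g)
    ⟨n - 1, fun g hg => (ms_lt hK (hcase.trans_le hg)).le⟩ ⟨g0, hρ0⟩
  have hg0g : g0 ≤ g := hgmax _ hρ0
  have hg1 : ms K (g + 1) < ρ := by
    by_contra hc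
    have := hgmax _ (not_lt.mp hc)
    omega
  have hW : ∃ w1 ∈ G K (g + 1), ∃ w2 ∈ G K (g + 1),
      |x - w1| < (K : ℝ) ^ 6 * h ∧ |y - w2| < (K : ℝ) ^ 6 * h := by
    have hn := not_New_succ (K := K) x y h
    rw [← hg0] at hn
    unfold New at hn
    rw [stageB_three (by omega), not_and_or] at hn
    rcases hn with hn | hn
    · have b1 : bd K (g0 + 1) x h ≠ 6 := fun hc => hn (stageB_six (Or.inl hc))
      have b2 : bd K (g0 + 1) y h ≠ 6 := fun hc => hn (stageB_six (Or.inr hc))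
      obtain ⟨w1, m1, d1⟩ := near_of_bd hK hh b1
      obtain ⟨w2, m2, d2⟩ := near_of_bd hK hh b2
      exact ⟨w1, G_mono hK (by omega) m1, w2, G_mono hK (by omega) m2, d1, d2⟩
    · have b1 : bd K (g0 + 1 - 1) x h ≠ 6 := fun hc => hn (notchB_six (Or.inl hc))
      have b2 : bd K (g0 + 1 - 1) y h ≠ 6 := fun hc => hn (notchB_six (Or.inr hc))
      obtain ⟨w1, m1, d1⟩ := near_of_bd hK hh b1
      obtain ⟨w2, m2, d2⟩ := near_of_bd hK hh b2
      exact ⟨w1, G_mono hK (by omega) m1, w2, G_mono hK (by omega) m2, d1, d2⟩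
  obtain ⟨w1, m1, w2, m2, d1, d2⟩ := hW
  have tri : ∀ {z w V : ℝ}, |z - w| < (K : ℝ) ^ 6 * h → |z - V| ≤ ρ → |w - V| ≤ 2 * ms K g := by
    intro z w V h1 h2
    have : |w - V| ≤ |z - w| + |z - V| := by
      rw [show w - V = -(z - w) + (z - V) by ring]
      exact (abs_add_le _ _).trans (by rw [abs_neg])
    linarith
  obtain ⟨u1, hu1, e1⟩ := idx_bound hK m1 (tri d1 (le_max_left _ _))
  obtain ⟨u2, hu2, e2⟩ := idx_bound hK m2 (tri d2 (le_max_right _ _))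
  refine ⟨g, u1, u2, hg1, hg, by linarith, hu1, hu2, ?_, ?_⟩
  · have : anc K V1 (some (g, u1)) = w1 := e1.symm
    rw [this]
    linarith
  · have : anc K V2 (some (g, u2)) = w2 := e2.symm
    rw [this]
    linarith

theorem floor_close {a b L : ℝ} (h : |a - b| ≤ L) :
    ⌊a⌋ ∈ Finset.Icc (⌊b⌋ - ⌈L⌉₊ - 1) (⌊b⌋ + ⌈L⌉₊ + 1) := by
  rw [Finset.mem_Icc]
  have h1 := Int.floor_le a
  have h2 := Int.lt_floor_add_one a
  have h3 := Int.floor_le b
  have h4 := Int.lt_floor_add_one b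
  have h5 := Nat.le_ceil L
  have h6 := abs_le.mp h
  constructor
  · have : ((⌊b⌋ - ⌈L⌉₊ - 1 : ℤ) : ℝ) < ((⌊a⌋ + 1 : ℤ) : ℝ) := by
      push_cast
      linarith [h6.1]
    have := Int.cast_lt.mp this
    omega
  · have : ((⌊a⌋ : ℤ) : ℝ) < ((⌊b⌋ + ⌈L⌉₊ + 1 + 1 : ℤ) : ℝ) := by
      push_cast
      linarith [h6.2]
    have := Int.cast_lt.mp this
    omega

theorem card_Icc_le (c : ℤ) {L : ℝ} (hL : 0 ≤ L) :
    ((Finset.Icc (c - ⌈L⌉₊ - 1) (c + ⌈L⌉₊ + 1)).card : ℝ) ≤ 2 * L + 5 := by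
  rw [Int.card_Icc]
  have : (c + ⌈L⌉₊ + 1 + 1 - (c - ⌈L⌉₊ - 1)).toNat = 2 * ⌈L⌉₊ + 3 := by omega
  rw [this]
  have := Nat.ceil_lt_add_one hL
  push_cast
  linarith

theorem log_close {a b t : ℝ} (ha : 0 < a) (hb : 0 < b) (h1 : a ≤ 6 * Real.exp t * b)
    (h2 : b ≤ 6 * Real.exp t * a) : |Real.log a - Real.log b| ≤ t + 5 := by
  have h6 : Real.log 6 ≤ 5 := by
    have := Real.log_le_sub_one_of_pos (by norm_num : (0 : ℝ) < 6)
    linarith
  have e1 := Real.log_le_log ha h1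
  have e2 := Real.log_le_log hb h2
  rw [Real.log_mul (by positivity) hb.ne', Real.log_mul (by norm_num) (Real.exp_pos t).ne',
    Real.log_exp] at e1
  rw [Real.log_mul (by positivity) ha.ne', Real.log_mul (by norm_num) (Real.exp_pos t).ne',
    Real.log_exp] at e2
  rw [abs_le]
  constructor <;> linarith

theorem eq_floor_close {a b s : ℝ} (hs : 0 < s) (h : ⌊a / s⌋ = ⌊b / s⌋) : |a - b| ≤ s := by
  have h1 := Int.floor_le (a / s)
  have h2 := Int.lt_floor_add_one (a / s)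
  have h3 := Int.floor_le (b / s)
  have h4 := Int.lt_floor_add_one (b / s)
  rw [h] at h1 h2
  have e : a - b = s * (a / s - b / s) := by field_simp
  rw [e, abs_mul, abs_of_pos hs]
  have : |a / s - b / s| ≤ 1 := by
    rw [abs_le]
    constructor <;> linarith
  nlinarith

theorem growth (hK : 8 ≤ K) {δ : ℝ} (hδ : 0 < δ) (hδ1 : δ ≤ 1) :
    ∃ C : ℝ, 0 ≤ C ∧ ∀ {ι : Type} (S : Set ι) (X Y h : ι → ℝ) (l : Label) (x0 y0 h0 t : ℝ),
      0 < h0 → 0 ≤ t → (∀ P ∈ S, 0 < h P) →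
      (∀ P ∈ S, ∀ Q ∈ S, |X P - X Q| ≤ δ * h P → |Y P - Y Q| ≤ δ * h P →
        |h P - h Q| ≤ δ * h P → h P ≤ 2 * h Q → P = Q) →
      (∀ P ∈ S, Lam K (X P) (Y P) (h P) = l) →
      (∀ P ∈ S, h P ≤ 2 * Real.exp t * h0 ∧ h0 ≤ 2 * Real.exp t * h P ∧
        |X P - x0| ≤ 2 * Real.exp t * h0 ∧ |X P - x0| ≤ 2 * Real.exp t * h P ∧
        |Y P - y0| ≤ 2 * Real.exp t * h0 ∧ |Y P - y0| ≤ 2 * Real.exp t * h P) →
      S.Finite ∧ (S.ncard : ℝ) ≤ C * (1 + t) ^ 2 := by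
  classical
  have hk := K_ge hK
  have hk0 := K_pos hK
  set η : ℝ := Real.log (1 + δ) with hη
  have hη0 : 0 < η := Real.log_pos (by linarith)
  have hexp : Real.exp η = 1 + δ := Real.exp_log (by linarith)
  set B : ℝ := 2 * (K : ℝ) ^ 14 / δ with hB
  have hB0 : 0 ≤ B := by positivity
  set U : ℤ := 2 * (K : ℤ) ^ 3 + 1 with hU
  set cU : ℝ := ((Finset.Icc (-U) U).card : ℝ) with hcU
  have hcU0 : 0 ≤ cU := Nat.cast_nonneg _
  refine ⟨(10 / η + 5) * (1 + 17 * cU ^ 2) * (2 * B + 5) ^ 2, by positivity, ?_⟩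
  intro ι S X Y h l x0 y0 h0 t hh0 ht hpos hsep hl hrel
  obtain ⟨V1, V2, hV⟩ := anchor hK l
  have hlogK : 1 ≤ Real.log K := by
    rw [Real.le_log_iff_exp_le hk0]
    have := Real.exp_one_lt_d9
    linarith
  set σ0 : ℝ := max (max |x0 - V1| |y0 - V2|) h0 with hσ0
  have hσ0pos : 0 < σ0 := hh0.trans_le (le_max_right _ _)
  set γ : ℝ := -Real.log σ0 / (3 * Real.log K) with hγ
  set IG : Finset ℤ := Finset.Icc (⌊γ⌋ - ⌈t + 6⌉₊ - 1) (⌊γ⌋ + ⌈t + 6⌉₊ + 1) with hIG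
  set O : Finset (Option (ℤ × ℤ × ℤ)) :=
    insert none ((IG ×ˢ (Finset.Icc (-U) U ×ˢ Finset.Icc (-U) U)).image some) with hO
  have he1 : 1 ≤ Real.exp t := Real.one_le_exp ht
  have hanc : ∀ P ∈ S, ∃ o ∈ O,
      |X P - anc K V1 (o.map fun z => (z.1, z.2.1))| ≤ (K : ℝ) ^ 14 * h P ∧
      |Y P - anc K V2 (o.map fun z => (z.1, z.2.2))| ≤ (K : ℝ) ^ 14 * h P := by
    intro P hP
    rcases hV _ _ _ (hpos P hP) (hl P hP) with hc | ⟨g, u1, u2, a1, a2, a3, a4, a5, a6, a7⟩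
    · exact ⟨none, Finset.mem_insert_self _ _, hc⟩
    · refine ⟨some (g, u1, u2), ?_, a6, a7⟩
      refine Finset.mem_insert_of_mem (Finset.mem_image_of_mem _ ?_)
      simp only [Finset.mem_product]
      refine ⟨?_, Finset.mem_Icc.mpr (abs_le.mp a4), Finset.mem_Icc.mpr (abs_le.mp a5)⟩
      obtain ⟨r1, r2, r3, r4, r5, r6⟩ := hrel P hP
      set ρ := max |X P - V1| |Y P - V2| with hρ
      have hP0 := hpos P hP
      have hρ0 : 0 < ρ := hP0.trans_le a3
      have s1 : |x0 - V1| ≤ σ0 := (le_max_left _ _).trans (le_max_left _ _)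
      have s2 : |y0 - V2| ≤ σ0 := (le_max_right _ _).trans (le_max_left _ _)
      have s3 : h0 ≤ σ0 := le_max_right _ _
      have s4 : |X P - V1| ≤ ρ := le_max_left _ _
      have s5 : |Y P - V2| ≤ ρ := le_max_right _ _
      have tri : ∀ a b V : ℝ, |a - V| ≤ |b - V| + |a - b| := by
        intro a b V
        rw [show a - V = (b - V) + (a - b) by ring]
        exact abs_add_le _ _
      have p1 : Real.exp t * h0 ≤ Real.exp t * σ0 := by gcongr
      have p2 : Real.exp t * h P ≤ Real.exp t * ρ := by gcongr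
      have p3 : σ0 ≤ Real.exp t * σ0 := le_mul_of_one_le_left hσ0pos.le he1
      have p4 : ρ ≤ Real.exp t * ρ := le_mul_of_one_le_left hρ0.le he1
      have b1 : ρ ≤ 6 * Real.exp t * σ0 := by
        apply max_le
        · have := tri (X P) x0 V1
          linarith
        · have := tri (Y P) y0 V2
          linarith
      have b2 : σ0 ≤ 6 * Real.exp t * ρ := by
        apply max_le
        · apply max_le
          · have := tri x0 (X P) V1
            rw [abs_sub_comm x0 (X P)] at this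
            linarith
          · have := tri y0 (Y P) V2
            rw [abs_sub_comm y0 (Y P)] at this
            linarith
        · linarith
      have b3 := abs_le.mp (log_close hρ0 hσ0pos b1 b2)
      have l1 := Real.log_lt_log (ms_pos hK _) a1
      have l2 := Real.log_le_log hρ0 a2
      unfold ms at l1 l2
      rw [Real.log_zpow] at l1 l2
      push_cast at l1 l2
      have hg : (g : ℤ) = ⌊(g : ℝ)⌋ := (Int.floor_intCast g).symm
      rw [hg]
      apply floor_close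
      have hL : 0 < 3 * Real.log K := by linarith
      have e : (g : ℝ) - γ = (3 * Real.log K * g + Real.log σ0) / (3 * Real.log K) := by
        rw [hγ]
        field_simp
        ring
      rw [e, abs_div, abs_of_pos hL, div_le_iff₀ hL, abs_le]
      constructor <;> nlinarith [b3.1, b3.2]
  choose! o ho hoX hoY using hanc
  set a : ι → ℤ := fun P => ⌊Real.log (h P) / η⌋ with ha
  set H : ι → ℝ := fun P => Real.exp (η * a P) with hH
  have hHle : ∀ P ∈ S, H P ≤ h P := by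
    intro P hP
    have e1 : (a P : ℝ) ≤ Real.log (h P) / η := Int.floor_le _
    rw [le_div_iff₀ hη0] at e1
    calc H P ≤ Real.exp (Real.log (h P)) := Real.exp_le_exp.mpr (by linarith)
      _ = h P := Real.exp_log (hpos P hP)
  have hHge : ∀ P ∈ S, h P ≤ (1 + δ) * H P := by
    intro P hP
    have e1 : Real.log (h P) / η < (a P : ℝ) + 1 := Int.lt_floor_add_one _
    rw [div_lt_iff₀ hη0] at e1
    calc h P = Real.exp (Real.log (h P)) := (Real.exp_log (hpos P hP)).symm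
      _ ≤ Real.exp (η + η * a P) := Real.exp_le_exp.mpr (by linarith)
      _ = (1 + δ) * H P := by rw [Real.exp_add, hexp]
  have hH0 : ∀ P, 0 < H P := fun P => Real.exp_pos _
  set c1 : ι → ℤ := fun P =>
    ⌊(X P - anc K V1 ((o P).map fun z => (z.1, z.2.1))) / (δ * H P)⌋ with hc1
  set c2 : ι → ℤ := fun P =>
    ⌊(Y P - anc K V2 ((o P).map fun z => (z.1, z.2.2))) / (δ * H P)⌋ with hc2
  set IA : Finset ℤ := Finset.Icc (⌊Real.log h0 / η⌋ - ⌈(t + 5) / η⌉₊ - 1)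
    (⌊Real.log h0 / η⌋ + ⌈(t + 5) / η⌉₊ + 1) with hIA
  set IB : Finset ℤ := Finset.Icc (⌊(0 : ℝ)⌋ - ⌈B⌉₊ - 1) (⌊(0 : ℝ)⌋ + ⌈B⌉₊ + 1) with hIB
  set κ : ι → ℤ × Option (ℤ × ℤ × ℤ) × ℤ × ℤ := fun P => (a P, o P, c1 P, c2 P) with hκ
  set T : Finset (ℤ × Option (ℤ × ℤ × ℤ) × ℤ × ℤ) := IA ×ˢ (O ×ˢ (IB ×ˢ IB)) with hT
  have hcB : ∀ P ∈ S, ∀ z : ℝ, |z| ≤ (K : ℝ) ^ 14 * h P → ⌊z / (δ * H P)⌋ ∈ IB := by
    intro P hP z hz
    apply floor_close
    have hd : 0 < δ * H P := mul_pos hδ (hH0 P)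
    rw [sub_zero, abs_div, abs_of_pos hd, div_le_iff₀ hd, hB]
    have e : 2 * (K : ℝ) ^ 14 / δ * (δ * H P) = (K : ℝ) ^ 14 * (2 * H P) := by field_simp
    rw [e]
    have := hHge P hP
    have := hH0 P
    have : h P ≤ 2 * H P := by nlinarith
    have : (K : ℝ) ^ 14 * h P ≤ (K : ℝ) ^ 14 * (2 * H P) := by gcongr
    linarith
  have hmaps : Set.MapsTo κ S (T : Set _) := by
    intro P hP
    simp only [hT, hκ, Finset.coe_product, Set.mem_prod, Finset.mem_coe]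
    refine ⟨?_, ho P hP, hcB P hP _ (hoX P hP), hcB P hP _ (hoY P hP)⟩
    apply floor_close
    obtain ⟨r1, r2, -⟩ := hrel P hP
    have hP0 := hpos P hP
    have q1 : 0 < Real.exp t * h0 := by positivity
    have q2 : 0 < Real.exp t * h P := by positivity
    have := log_close hP0 hh0 (t := t) (by linarith) (by linarith)
    rw [← sub_div, abs_div, abs_of_pos hη0]
    gcongr
  have hinj : Set.InjOn κ S := by
    intro P hP Q hQ he
    simp only [hκ, Prod.mk.injEq] at he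
    obtain ⟨e1, e2, e3, e4⟩ := he
    have eH : H P = H Q := by simp only [hH, e1]
    have hd : 0 < δ * H P := mul_pos hδ (hH0 P)
    have d1 : δ * H P ≤ δ * h P := mul_le_mul_of_nonneg_left (hHle P hP) hδ.le
    simp only [hc1, hc2] at e3 e4
    rw [← e2, ← eH] at e3 e4
    have f3 := eq_floor_close hd e3
    have f4 := eq_floor_close hd e4
    rw [sub_sub_sub_cancel_right] at f3 f4
    have g1 := hHle P hP
    have g2 := hHge P hP
    have g3 := hHle Q hQ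
    have g4 := hHge Q hQ
    rw [← eH] at g3 g4
    have g5 := hH0 P
    have g6 : δ * H P ≤ H P := mul_le_of_le_one_left g5.le hδ1
    have g7 : (1 + δ) * H P = H P + δ * H P := by ring
    rw [g7] at g2 g4
    refine hsep P hP Q hQ (f3.trans d1) (f4.trans d1) ?_ (by linarith only [g2, g3, g6])
    rw [abs_le]
    constructor <;> linarith only [g1, g2, g3, g4, d1]
  have hfin : S.Finite := Set.Finite.of_injOn hmaps hinj (Finset.finite_toSet T)
  refine ⟨hfin, ?_⟩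
  have hcard : S.ncard ≤ T.card := by
    rw [← Set.ncard_coe_finset]
    exact Set.ncard_le_ncard_of_injOn κ hmaps hinj (Finset.finite_toSet T)
  have k1 : (IA.card : ℝ) ≤ (10 / η + 5) * (1 + t) := by
    have := card_Icc_le ⌊Real.log h0 / η⌋ (L := (t + 5) / η) (by positivity)
    have e : 2 * ((t + 5) / η) + 5 ≤ (10 / η + 5) * (1 + t) := by
      have e1 : 2 * ((t + 5) / η) = 10 / η + 2 / η * t := by field_simp; ring
      have e2 : 2 / η * t ≤ 10 / η * t := by gcongr; norm_num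
      nlinarith
    exact this.trans e
  have k2 : (IB.card : ℝ) ≤ 2 * B + 5 := card_Icc_le _ hB0
  have k3 : (O.card : ℝ) ≤ (1 + 17 * cU ^ 2) * (1 + t) := by
    have e1 : O.card ≤ (IG ×ˢ (Finset.Icc (-U) U ×ˢ Finset.Icc (-U) U)).card + 1 :=
      (Finset.card_insert_le _ _).trans (Nat.add_le_add_right Finset.card_image_le 1)
    rw [Finset.card_product, Finset.card_product] at e1
    have e2 : (O.card : ℝ) ≤ IG.card * (cU * cU) + 1 := by
      rw [hcU]
      exact_mod_cast e1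
    have e3 : (IG.card : ℝ) ≤ 2 * (t + 6) + 5 := card_Icc_le _ (by linarith)
    have e4 : (IG.card : ℝ) * (cU * cU) ≤ (17 * (1 + t)) * (cU * cU) := by
      apply mul_le_mul_of_nonneg_right _ (by positivity)
      linarith
    nlinarith
  calc (S.ncard : ℝ) ≤ T.card := by exact_mod_cast hcard
    _ = IA.card * (O.card * (IB.card * IB.card)) := by
      rw [hT, Finset.card_product, Finset.card_product, Finset.card_product]
      push_cast
      ring
    _ ≤ ((10 / η + 5) * (1 + t)) * (((1 + 17 * cU ^ 2) * (1 + t)) * ((2 * B + 5) * (2 * B + 5))) := by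
      gcongr
    _ = _ := by ring

end Pool.Agent.H229Z.Asd
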