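import Pool.Agent.H229Z.Asd.Defs
import Pool.Agent.H229Z.Asd.Growth

/-!
# The theorem
-/

open Filter Topology

namespace Pool.Agent.H229Z.Asd

theorem hdist_symm {k : ℕ} (p q : Hyp k) : hdist p q = hdist q p := by
  unfold hdist
  congr 2
  rw [mul_right_comm]
  congr 1
  exact Finset.sum_congr rfl fun i _ => by ring

theorem hdist_self {k : ℕ} (p : Hyp k) : hdist p p = 0 := by
  simp [hdist]

theorem exists_net (k : ℕ) : ∃ Z : Set (Hyp k), IsNet Z := by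
  obtain ⟨Z, hZ⟩ := zorn_subset
    {Z : Set (Hyp k) | ∀ p ∈ Z, ∀ q ∈ Z, p ≠ q → (1 : ℝ) ≤ hdist p q} (by
      intro c hc hchain
      refine ⟨⋃₀ c, ?_, fun s hs => Set.subset_sUnion_of_mem hs⟩
      rintro p ⟨s, hs, hp⟩ q ⟨s', hs', hq⟩ hne
      rcases hchain.total hs hs' with h | h
      · exact hc hs' p (h hp) q hq hne
      · exact hc hs p hp q (h hq) hne)
  refine ⟨Z, ⟨1, one_pos, hZ.prop⟩, 1, fun p => ?_⟩
  by_contra hc
  push Not at hc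
  have h1 : insert p Z ∈ {Z : Set (Hyp k) | ∀ p ∈ Z, ∀ q ∈ Z, p ≠ q → (1 : ℝ) ≤ hdist p q} := by
    rintro a (rfl | ha) b (rfl | hb) hne
    · exact absurd rfl hne
    · exact (hc b hb).le
    · rw [hdist_symm]
      exact (hc a ha).le
    · exact hZ.prop a ha b hb hne
  have h2 : p ∈ Z := hZ.le_of_ge h1 (Set.subset_insert p Z) (Set.mem_insert p Z)
  have := hc p h2
  rw [hdist_self] at this
  linarith

theorem hdist_eq (p q : Hyp 2) : hdist p q = Real.arcosh (1 +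
    ((p.1 0 - q.1 0) ^ 2 + (p.1 1 - q.1 1) ^ 2 + (p.1 2 - q.1 2) ^ 2) / (2 * p.1 2 * q.1 2)) := by
  unfold hdist
  rw [Fin.sum_univ_three]
  rfl

theorem hpos (p : Hyp 2) : 0 < p.1 2 := p.2

theorem cosh_le_exp {t : ℝ} (ht : 0 ≤ t) : Real.cosh t ≤ Real.exp t := by
  rw [Real.cosh_eq]
  have : Real.exp (-t) ≤ Real.exp t := Real.exp_le_exp.mpr (by linarith)
  linarith

theorem rel_aux (p q : Hyp 2) {t : ℝ} (ht : 0 ≤ t) (h : hdist p q ≤ t) :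
    q.1 2 ≤ 2 * Real.exp t * p.1 2 ∧ |q.1 0 - p.1 0| ≤ 2 * Real.exp t * p.1 2 ∧
      |q.1 1 - p.1 1| ≤ 2 * Real.exp t * p.1 2 := by
  have hp := hpos p
  have hq := hpos q
  rw [hdist_eq] at h
  set a := p.1 0 - q.1 0
  set b := p.1 1 - q.1 1
  have hd : 0 < 2 * p.1 2 * q.1 2 := by positivity
  have h1 : (1 : ℝ) ≤ 1 + (a ^ 2 + b ^ 2 + (p.1 2 - q.1 2) ^ 2) / (2 * p.1 2 * q.1 2) := by
    have : 0 ≤ (a ^ 2 + b ^ 2 + (p.1 2 - q.1 2) ^ 2) / (2 * p.1 2 * q.1 2) := by positivity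
    linarith
  have h2 : 1 + (a ^ 2 + b ^ 2 + (p.1 2 - q.1 2) ^ 2) / (2 * p.1 2 * q.1 2) ≤ Real.exp t := by
    rw [← Real.cosh_arcosh h1]
    refine le_trans ?_ (cosh_le_exp ht)
    rw [Real.cosh_le_cosh, abs_of_nonneg (Real.arcosh_nonneg h1), abs_of_nonneg ht]
    exact h
  have h3 : a ^ 2 + b ^ 2 + (p.1 2 - q.1 2) ^ 2 ≤ (Real.exp t - 1) * (2 * p.1 2 * q.1 2) := by
    rw [← div_le_iff₀ hd]
    linarith
  have he : 1 ≤ Real.exp t := Real.one_le_exp ht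
  have h4 : q.1 2 ≤ 2 * Real.exp t * p.1 2 := by
    have : q.1 2 * q.1 2 ≤ (2 * Real.exp t * p.1 2) * q.1 2 := by
      nlinarith [sq_nonneg a, sq_nonneg b, sq_nonneg (p.1 2)]
    exact le_of_mul_le_mul_right this hq
  have h5 : Real.exp t * (2 * p.1 2 * q.1 2) ≤ (2 * Real.exp t * p.1 2) ^ 2 := by
    have : 0 < 2 * Real.exp t * p.1 2 := by positivity
    nlinarith
  have h6 : 0 ≤ 2 * Real.exp t * p.1 2 := by positivity
  refine ⟨h4, ?_, ?_⟩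
  · rw [abs_sub_comm]
    apply abs_le_of_sq_le_sq _ h6
    nlinarith [sq_nonneg b, sq_nonneg (p.1 2 - q.1 2)]
  · rw [abs_sub_comm]
    apply abs_le_of_sq_le_sq _ h6
    nlinarith [sq_nonneg a, sq_nonneg (p.1 2 - q.1 2)]

theorem sep_aux {ε : ℝ} (hε : 0 < ε) : ∃ δ : ℝ, 0 < δ ∧ δ ≤ 1 ∧ ∀ p q : Hyp 2,
    |p.1 0 - q.1 0| ≤ δ * p.1 2 → |p.1 1 - q.1 1| ≤ δ * p.1 2 → |p.1 2 - q.1 2| ≤ δ * p.1 2 →
    p.1 2 ≤ 2 * q.1 2 → hdist p q < ε := by
  have hc : 1 < Real.cosh ε := Real.one_lt_cosh.mpr hε.ne'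
  refine ⟨min 1 ((Real.cosh ε - 1) / 4), lt_min one_pos (by linarith), min_le_left _ _, ?_⟩
  intro p q h0 h1 h2 h3
  set δ := min 1 ((Real.cosh ε - 1) / 4) with hδ
  have d0 : 0 < δ := lt_min one_pos (by linarith)
  have d1 : δ ≤ 1 := min_le_left _ _
  have d2 : δ ≤ (Real.cosh ε - 1) / 4 := min_le_right _ _
  have hp := hpos p
  have hq := hpos q
  have hd : 0 < 2 * p.1 2 * q.1 2 := by positivity
  rw [hdist_eq]
  have s0 := sq_le_sq' (abs_le.mp h0).1 (abs_le.mp h0).2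
  have s1 := sq_le_sq' (abs_le.mp h1).1 (abs_le.mp h1).2
  have s2 := sq_le_sq' (abs_le.mp h2).1 (abs_le.mp h2).2
  have e1 : ((p.1 0 - q.1 0) ^ 2 + (p.1 1 - q.1 1) ^ 2 + (p.1 2 - q.1 2) ^ 2) /
      (2 * p.1 2 * q.1 2) ≤ 3 * δ := by
    rw [div_le_iff₀ hd]
    have a1 : (δ * p.1 2) ^ 2 ≤ δ * (p.1 2 * p.1 2) := by
      have : δ * δ ≤ δ := by nlinarith
      have : 0 ≤ p.1 2 * p.1 2 := by positivity
      nlinarith
    have a2 : p.1 2 * p.1 2 ≤ 2 * p.1 2 * q.1 2 := by nlinarith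
    have a3 : δ * (p.1 2 * p.1 2) ≤ δ * (2 * p.1 2 * q.1 2) := by gcongr
    linarith
  have e0 : 0 ≤ ((p.1 0 - q.1 0) ^ 2 + (p.1 1 - q.1 1) ^ 2 + (p.1 2 - q.1 2) ^ 2) /
      (2 * p.1 2 * q.1 2) := by positivity
  rw [← Real.arcosh_cosh hε.le, Real.arcosh_lt_arcosh (by linarith) (by linarith)]
  linarith

theorem quad_mem {C : ℝ} (hC : 0 ≤ C) : (fun t : ℝ => C * (1 + t) ^ 2) ∈ oPoly 3 := by
  refine ⟨fun a ha b _ hab => ?_, fun t ht => by positivity, ?_⟩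
  · have : (0 : ℝ) ≤ a := ha
    show C * (1 + a) ^ 2 ≤ C * (1 + b) ^ 2
    gcongr
  · have h1 : Tendsto (fun t : ℝ => C * ((t⁻¹ + 1) ^ 2 * t⁻¹)) atTop (𝓝 (C * ((0 + 1) ^ 2 * 0))) :=
      (((tendsto_inv_atTop_zero.add_const 1).pow 2).mul tendsto_inv_atTop_zero).const_mul C
    simp only [mul_zero] at h1
    refine h1.congr' ?_
    filter_upwards [eventually_gt_atTop 0] with t ht
    field_simp

theorem asdimLE_two (Z : Set (Hyp 2)) (hZ : IsNet Z) : AsdimLE (oPoly 3) Z 2 := by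
  classical
  intro r hr
  obtain ⟨⟨ε, hε, hsep⟩, -⟩ := hZ
  obtain ⟨δ, hδ, hδ1, hδsep⟩ := sep_aux hε
  set E : ℝ := Real.exp r with hE
  have hE1 : 1 ≤ E := Real.one_le_exp hr.le
  set F : ℝ := 8 * E ^ 2 with hF
  have hE2 : 1 ≤ E ^ 2 := one_le_pow₀ hE1
  have hF1 : 1 ≤ F := by linarith
  set K : ℕ := ⌈2 * F⌉₊ with hKdef
  have hFK : 2 * F ≤ K := Nat.le_ceil _
  have hK : 8 ≤ K := by
    have : (8 : ℝ) ≤ K := by linarith
    exact_mod_cast this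
  set L : Hyp 2 → Label := fun p => Lam K (p.1 0) (p.1 1) (p.1 2) with hL
  set piece : Label → Set (Hyp 2) := fun l => {p ∈ Z | L p = l} with hpiece
  obtain ⟨C, hC0, hC⟩ := growth hK hδ hδ1
  refine ⟨Set.range piece, ?_, ?_, ?_, _, quad_mem hC0, ?_⟩
  · rintro _ ⟨l, rfl⟩ p hp
    exact hp.1
  · intro z hz
    exact ⟨piece (L z), ⟨_, rfl⟩, hz, rfl⟩
  · intro z _
    set S : Set (Hyp 2) := {y | hdist z y ≤ r} with hS
    have hrel : ∀ P ∈ S, (P.1 2 ≤ 2 * E * z.1 2 ∧ |P.1 0 - z.1 0| ≤ 2 * E * z.1 2 ∧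
        |P.1 1 - z.1 1| ≤ 2 * E * z.1 2) ∧ z.1 2 ≤ 2 * E * P.1 2 := by
      intro P hP
      exact ⟨rel_aux z P hr.le hP, (rel_aux P z hr.le (by rw [hdist_symm]; exact hP)).1⟩
    have hzP : ∀ P ∈ S, 4 * E * z.1 2 ≤ F * P.1 2 := by
      intro P hP
      have := (hrel P hP).2
      rw [hF]
      nlinarith
    have tri : ∀ a b c : ℝ, |a - b| ≤ |a - c| + |b - c| := by
      intro a b c
      rw [show a - b = (a - c) + -(b - c) by ring]
      exact (abs_add_le _ _).trans (by rw [abs_neg])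
    have hm := mult hK hF1 hFK S (fun p => p.1 0) (fun p => p.1 1) (fun p => p.1 2)
      (fun P _ => hpos P)
      (fun P hP Q hQ => by
        have := (hrel Q hQ).1.1
        have := hzP P hP
        have : 0 < E * z.1 2 := mul_pos (by linarith) (hpos z)
        show Q.1 2 ≤ F * P.1 2
        linarith)
      (fun P hP Q hQ => by
        have := (hrel P hP).1.2.1
        have := (hrel Q hQ).1.2.1
        have := hzP P hP
        have := tri (P.1 0) (Q.1 0) (z.1 0)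
        show |P.1 0 - Q.1 0| ≤ F * P.1 2
        linarith)
      (fun P hP Q hQ => by
        have := (hrel P hP).1.2.2
        have := (hrel Q hQ).1.2.2
        have := hzP P hP
        have := tri (P.1 1) (Q.1 1) (z.1 1)
        show |P.1 1 - Q.1 1| ≤ F * P.1 2
        linarith)
    have hsub : {U ∈ Set.range piece | ∃ y ∈ U, hdist z y ≤ r} ⊆ piece '' (L '' S) := by
      rintro _ ⟨⟨l, rfl⟩, y, hy, hyr⟩
      exact ⟨l, ⟨y, hyr, hy.2⟩, rfl⟩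
    calc _ ≤ (piece '' (L '' S)).encard := Set.encard_le_encard hsub
      _ ≤ (L '' S).encard := Set.encard_image_le _ _
      _ ≤ 3 := hm
      _ = ((2 : ℕ) : ℕ∞) + 1 := by norm_num
  · rintro _ ⟨l, rfl⟩ x _ t ht
    refine hC {y ∈ piece l | hdist x y ≤ t} (fun p => p.1 0) (fun p => p.1 1) (fun p => p.1 2) l
      (x.1 0) (x.1 1) (x.1 2) t (hpos x) ht (fun P _ => hpos P) ?_ (fun P hP => hP.1.2) ?_
    · intro P hP Q hQ a1 a2 a3 a4
      by_contra hne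
      have := hsep P hP.1.1 Q hQ.1.1 hne
      have := hδsep P Q a1 a2 a3 a4
      linarith
    · intro P hP
      obtain ⟨a1, a2, a3⟩ := rel_aux x P ht hP.2
      obtain ⟨b1, b2, b3⟩ := rel_aux P x ht (by rw [hdist_symm]; exact hP.2)
      rw [abs_sub_comm] at b2 b3
      exact ⟨a1, b1, a2, b2, a3, b3⟩

theorem main : (∃ Z : Set (Hyp 2), IsNet Z) ∧
    ∀ Z : Set (Hyp 2), IsNet Z → asdim (oPoly 3) Z ≤ 2 :=
  ⟨exists_net 2, fun Z hZ => sInf_le ⟨2, rfl, asdimLE_two Z hZ⟩⟩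

end Pool.Agent.H229Z.Asd
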