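import Pool.Agent.H229Z.Asd.Abs
import Pool.Agent.H229Z.Asd.Grid

/-!
# The labelling of the upper half-space and its multiplicity
-/

namespace Pool.Agent.H229Z.Asd

/-- labels -/
abbrev Label : Type := (ℤ × ℤ × ℤ) ⊕ ((ℝ × Bool) × (ℝ × Bool))

/-- the label of the square `(i1, i2)` of generation `g` -/
noncomputable def lab (K : ℕ) (g i1 i2 : ℤ) : Label :=
  match cd K g i1, cd K g i2 with
  | some a, some b => Sum.inr (a, b)
  | _, _ => Sum.inl (g, i1, i2)

/-- discrete time -/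
noncomputable def tm (K : ℕ) (h : ℝ) : ℤ := Int.log K h⁻¹

/-- the point may carry the label of generation `g` -/
def New (K : ℕ) (x y h : ℝ) (g : ℤ) : Prop :=
  stageB (tm K h - 3 * g - 7) (sg K g x) (bd K g x h) (sg K g y) (bd K g y h) = true ∧
    notchB (sg K (g - 1) x) (bd K (g - 1) x h) (sg K (g - 1) y) (bd K (g - 1) y h) = false

/-- the generation whose label the point carries -/
noncomputable def gen (K : ℕ) (x y h : ℝ) : ℤ := sSup {g | New K x y h g}

/-- the label of a point -/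
noncomputable def Lam (K : ℕ) (x y h : ℝ) : Label :=
  lab K (gen K x y h) (ix K (gen K x y h) x) (ix K (gen K x y h) y)

variable {K : ℕ}

theorem New_le {x y h : ℝ} {g : ℤ} (hg : New K x y h g) : 3 * g + 8 ≤ tm K h := by
  by_contra hc
  have := hg.1
  rw [stageB_nonpos (by omega)] at this
  exact Bool.false_ne_true this

theorem gen_eq {x y h : ℝ} {g : ℤ} (hg : New K x y h g) (hmax : ∀ g', g < g' → ¬ New K x y h g') :
    gen K x y h = g := by
  apply IsGreatest.csSup_eq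
  exact ⟨hg, fun g' hg' => not_lt.mp fun hlt => hmax g' hlt hg'⟩

theorem not_New_succ (x y h : ℝ) : ¬ New K x y h (gen K x y h + 1) := by
  intro hc
  have hb : BddAbove {g | New K x y h g} := ⟨|tm K h|, fun g hg => by
    have := New_le hg
    have := le_abs_self (tm K h)
    have := abs_nonneg (tm K h)
    omega⟩
  have := le_csSup hb hc
  unfold gen at this
  omega

theorem tm_le (hK : 8 ≤ K) {h : ℝ} (hh : 0 < h) : h ≤ (K : ℝ) ^ (-tm K h) := by
  have := Int.zpow_log_le_self (R := ℝ) (b := K) (by omega) (inv_pos.mpr hh)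
  rw [zpow_neg]
  exact (le_inv_comm₀ hh (zpow_pos (K_pos hK) _)).mpr this

theorem lt_tm (hK : 8 ≤ K) {h : ℝ} (hh : 0 < h) : (K : ℝ) ^ (-(tm K h + 1)) < h := by
  have := Int.lt_zpow_succ_log_self (R := ℝ) (b := K) (by omega) h⁻¹
  rw [zpow_neg]
  exact (inv_lt_comm₀ (zpow_pos (K_pos hK) _) hh).mpr this

theorem tm_compat (hK : 8 ≤ K) {h h' : ℝ} (hh : 0 < h) (hh' : 0 < h') (h1 : h' ≤ K * h) :
    tm K h ≤ tm K h' + 1 := by
  by_contra hc
  have a1 := tm_le hK hh
  have a2 := lt_tm hK hh'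
  have a3 : (K : ℝ) ^ (-tm K h) ≤ (K : ℝ) ^ (-(tm K h' + 1) - 1) :=
    zpow_le_zpow_right₀ (by linarith [K_ge hK]) (by omega)
  have hk := K_pos hK
  rw [zpow_sub₀ hk.ne', zpow_one, le_div_iff₀ hk] at a3
  nlinarith

/-- the structure of one coordinate in a small ball -/
theorem coord (hK : 8 ≤ K) {F : ℝ} (hF : 1 ≤ F) (hFK : 2 * F ≤ K) {ι : Type*} (S : Set ι)
    (X h : ι → ℝ) (n : ℤ) (hpos : ∀ P ∈ S, 0 < h P)
    (hsm : ∀ P ∈ S, (K : ℝ) ^ 7 * h P ≤ ms K n)
    (hh : ∀ P ∈ S, ∀ Q ∈ S, h Q ≤ F * h P) (hX : ∀ P ∈ S, ∀ Q ∈ S, |X P - X Q| ≤ F * h P) :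
    ∃ (on : ℤ → Prop) (w : ℝ) (bb : ι → ℕ) (ee : ι → Bool),
      (∀ g g', g ≤ g' → on g → on g') ∧ (∃ k0, ∀ g, on g → k0 ≤ g) ∧
      (∀ g, on g → w ∈ G K g) ∧
      (∀ g, on g → ∀ P ∈ S, |X P - w| < ms K n ∧ ee P = decide (w ≤ X P)) ∧
      (∀ g ≤ n, ∀ P ∈ S, on g → bd K g (X P) (h P) = bb P ∧ sg K g (X P) = ee P) ∧
      (∀ g ≤ n, ∀ P ∈ S, ¬ on g → bd K g (X P) (h P) = 6) ∧
      (¬ on n → ∀ P ∈ S, bb P = 6) ∧
      (∃ md ∈ modes, ∀ P ∈ S, (ee P, bb P) ∈ md) ∧
      (∀ g ≤ n, ∀ P ∈ S, ∀ Q ∈ S, (on g → ee P = ee Q) → ix K g (X P) = ix K g (X Q)) := by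
  classical
  have hk := K_ge hK
  have hm := ms_pos hK n
  have hk6 : (1 : ℝ) ≤ (K : ℝ) ^ 6 := one_le_pow₀ (by linarith)
  have h8 : ∀ P ∈ S, 8 * ((K : ℝ) ^ 6 * h P) ≤ ms K n := by
    intro P hP
    have := hsm P hP
    have := hpos P hP
    have e : (K : ℝ) ^ 7 * h P = K * ((K : ℝ) ^ 6 * h P) := by ring
    have : 0 ≤ (K : ℝ) ^ 6 * h P := by positivity
    nlinarith
  have hF6 : ∀ P ∈ S, 2 * (F * h P) ≤ (K : ℝ) ^ 6 * h P := by
    intro P hP
    have := hpos P hP
    have e : (K : ℝ) ≤ (K : ℝ) ^ 6 := le_self_pow₀ (by linarith) (by norm_num)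
    nlinarith
  by_cases hnear : ∃ P ∈ S, D K n (X P) < (K : ℝ) ^ 6 * h P
  · obtain ⟨P0, hP0, hD⟩ := hnear
    set w := nr K n (X P0) with hw
    have hwG : w ∈ G K n := nr_mem n _
    have hclose : ∀ P ∈ S, |X P - w| < ms K n / 4 := by
      intro P hP
      have e1 : |X P - w| ≤ |X P0 - w| + |X P0 - X P| := by
        rw [show X P - w = (X P0 - w) + -(X P0 - X P) by ring]
        exact (abs_add_le _ _).trans (by rw [abs_neg])
      have e2 := hX P0 hP0 P hP
      have e3 := h8 P0 hP0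
      have e4 := hF6 P0 hP0
      unfold D at hD
      linarith
    have hnr : ∀ g ≤ n, w ∈ G K g → ∀ P ∈ S, nr K g (X P) = w := by
      intro g hg hwg P hP
      apply nr_eq hK hwg
      have := hclose P hP
      have := ms_anti hK hg
      linarith
    have hfar : ∀ g ≤ n, w ∉ G K g → ∀ P ∈ S, 3 * ms K n / 4 ≤ D K g (X P) := by
      intro g hg hwg P hP
      have e1 : nr K g (X P) ≠ w := fun hc => hwg (hc ▸ nr_mem g _)
      have e2 := G_sep hK (G_mono hK hg (nr_mem g (X P))) hwG e1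
      have e3 : |nr K g (X P) - w| ≤ |X P - nr K g (X P)| + |X P - w| := by
        rw [show nr K g (X P) - w = -(X P - nr K g (X P)) + (X P - w) by ring]
        exact (abs_add_le _ _).trans (by rw [abs_neg])
      have := hclose P hP
      unfold D
      linarith
    refine ⟨fun g => w ∈ G K g, w, fun P => band K |X P - w| (h P), fun P => decide (w ≤ X P),
      fun g g' hgg hg => G_mono hK hgg hg, birth hK w, fun g hg => hg, ?_, ?_, ?_, ?_, ?_, ?_⟩
    · intro g _ P hP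
      exact ⟨by linarith [hclose P hP], rfl⟩
    · intro g hg P hP hon
      unfold bd sg D
      rw [hnr g hg hon P hP]
      exact ⟨rfl, rfl⟩
    · intro g hg P hP hon
      unfold bd
      rw [band_eq_six hK (hpos P hP)]
      have := hfar g hg hon P hP
      have := h8 P hP
      linarith
    · intro hc
      exact absurd hwG hc
    · apply exists_mode S
      · intro P _
        exact band_le _ _
      · intro P hP Q hQ
        apply band_compat hK hF hFK (hpos P hP) (hpos Q hQ) (hh P hP Q hQ)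
        have e1 : |X P - w| ≤ |X Q - w| + |X P - X Q| := by
          rw [show X P - w = (X Q - w) + (X P - X Q) by ring]
          exact abs_add_le _ _
        linarith [hX P hP Q hQ]
      · intro P hP Q hQ hb
        rw [le_band hK (hpos P hP) le_rfl (by norm_num), pow_one] at hb
        have e2 := abs_le.mp (hX P hP Q hQ)
        have e3 : 2 * F * h P ≤ K * h P := mul_le_mul_of_nonneg_right hFK (hpos P hP).le
        have e4 : 0 < F * h P := mul_pos (by linarith) (hpos P hP)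
        rw [decide_eq_decide]
        rcases le_or_gt w (X P) with hc | hc
        · rw [abs_of_nonneg (by linarith)] at hb
          exact ⟨fun _ => by linarith [e2.2], fun _ => hc⟩
        · rw [abs_of_neg (by linarith)] at hb
          exact ⟨fun h' => by linarith, fun h' => by linarith [e2.1]⟩
    · intro g hg P hP Q hQ hee
      by_cases hon : w ∈ G K g
      · obtain ⟨i, hi⟩ := hon
        have e := hee ⟨i, hi⟩
        have hmg := ms_anti hK hg
        have a1 : |X P - ms K g * (i + th K)| < ms K g := by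
          rw [← hi]; linarith [hclose P hP]
        have a2 : |X Q - ms K g * (i + th K)| < ms K g := by
          rw [← hi]; linarith [hclose Q hQ]
        rw [ix_line hK a1, ix_line hK a2, ← hi]
        simp only [decide_eq_decide] at e
        simp only [e]
      · apply ix_eq_of hK
        have := hfar g hg hon P hP
        have := h8 P hP
        have := hF6 P hP
        have := hX P hP Q hQ
        linarith
  · push Not at hnear
    refine ⟨fun _ => False, 0, fun _ => 6, fun _ => true, fun _ _ _ h => h,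
      ⟨0, fun _ h => h.elim⟩, fun _ h => h.elim, fun _ h => h.elim, fun _ _ _ _ h => h.elim,
      ?_, fun _ _ _ => rfl, ⟨_, modes_some true 6 le_rfl, fun _ _ => by simp⟩, ?_⟩
    · intro g hg P hP _
      unfold bd
      rw [band_eq_six hK (hpos P hP)]
      exact (hnear P hP).trans (D_anti hK hg _)
    · intro g hg P hP Q hQ _
      apply ix_eq_of hK
      have := (hnear P hP).trans (D_anti hK hg _)
      have := hF6 P hP
      have := hX P hP Q hQ
      have := mul_pos (by linarith : 0 < F) (hpos P hP)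
      linarith

theorem or_not_eq {e e' : Bool} {p : Prop} [Decidable p]
    (h : (e || !decide p) = (e' || !decide p)) : p → e = e' := by
  intro hp
  simpa [hp] using h

theorem pair_mem {p q : Prop} [Decidable p] [Decidable q] (h : ¬ (p ∧ q)) :
    (decide p, decide q) ∈ [(false, false), (true, false), (false, true)] := by
  by_cases hp : p <;> by_cases hq : q <;> simp_all

/-- a small ball sees at most three labels -/
theorem mult (hK : 8 ≤ K) {F : ℝ} (hF : 1 ≤ F) (hFK : 2 * F ≤ K) {ι : Type*} (S : Set ι)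
    (X Y h : ι → ℝ) (hpos : ∀ P ∈ S, 0 < h P)
    (hh : ∀ P ∈ S, ∀ Q ∈ S, h Q ≤ F * h P) (hX : ∀ P ∈ S, ∀ Q ∈ S, |X P - X Q| ≤ F * h P)
    (hY : ∀ P ∈ S, ∀ Q ∈ S, |Y P - Y Q| ≤ F * h P) :
    ((fun P => Lam K (X P) (Y P) (h P)) '' S).encard ≤ 3 := by
  classical
  rcases S.eq_empty_or_nonempty with rfl | ⟨P0, hP0⟩
  · simp
  have hk := K_ge hK
  have htc : ∀ P ∈ S, ∀ Q ∈ S, tm K (h P) ≤ tm K (h Q) + 1 := by
    intro P hP Q hQ
    apply tm_compat hK (hpos P hP) (hpos Q hQ)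
    have := hh P hP Q hQ
    have := hpos P hP
    nlinarith
  obtain ⟨T1, ⟨Q0, hQ0, hT1⟩, hTmax⟩ := Int.exists_greatest_of_bdd
    (P := fun z => ∃ P ∈ S, tm K (h P) = z)
    ⟨tm K (h P0) + 1, by rintro z ⟨P, hP, rfl⟩; exact htc P hP P0 hP0⟩ ⟨_, P0, hP0, rfl⟩
  have hT : ∀ P ∈ S, T1 - 1 ≤ tm K (h P) ∧ tm K (h P) ≤ T1 := by
    intro P hP
    have := htc Q0 hQ0 P hP
    exact ⟨by omega, hTmax _ ⟨P, hP, rfl⟩⟩
  obtain ⟨n, hn1, hn2⟩ : ∃ n : ℤ, 3 * n + 8 ≤ T1 ∧ T1 ≤ 3 * n + 10 :=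
    ⟨(T1 - 8) / 3, by omega, by omega⟩
  have hsm : ∀ P ∈ S, (K : ℝ) ^ 7 * h P ≤ ms K n := by
    intro P hP
    have a1 := tm_le hK (hpos P hP)
    have a2 : (K : ℝ) ^ (-tm K (h P)) ≤ (K : ℝ) ^ (-(3 * n) - 7) :=
      zpow_le_zpow_right₀ (by linarith) (by have := (hT P hP).1; omega)
    have hk0 := K_pos hK
    rw [zpow_sub₀ hk0.ne', le_div_iff₀ (zpow_pos hk0 _)] at a2
    have a3 : (K : ℝ) ^ (7 : ℤ) = (K : ℝ) ^ 7 := by norm_cast
    rw [a3] at a2
    unfold ms
    have : (0 : ℝ) < (K : ℝ) ^ 7 := by positivity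
    nlinarith
  obtain ⟨on1, w1, bb1, ee1, mono1, ⟨k1, bir1⟩, wG1, cl1, eq1, six1, far1, ⟨m1, hm1, md1⟩, ix1⟩ :=
    coord hK hF hFK S X h n hpos hsm hh hX
  obtain ⟨on2, w2, bb2, ee2, mono2, ⟨k2, bir2⟩, wG2, cl2, eq2, six2, far2, ⟨m2, hm2, md2⟩, ix2⟩ :=
    coord hK hF hFK S Y h n hpos hsm hh hY
  -- basic facts
  have six : ∀ g ≤ n, ∀ P ∈ S, ¬ (on1 g ∧ on2 g) →
      bd K g (X P) (h P) = 6 ∨ bd K g (Y P) (h P) = 6 := by
    intro g hg P hP hb
    by_cases h1 : on1 g
    · exact Or.inr (six2 g hg P hP fun h2 => hb ⟨h1, h2⟩)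
    · exact Or.inl (six1 g hg P hP h1)
  have anti : ∀ g g', g ≤ g' → ¬ (on1 g' ∧ on2 g') → ¬ (on1 g ∧ on2 g) :=
    fun g g' hgg hb hc => hb ⟨mono1 _ _ hgg hc.1, mono2 _ _ hgg hc.2⟩
  have notch_of : ∀ g ≤ n, ∀ P ∈ S, on1 g ∧ on2 g →
      notchB (sg K g (X P)) (bd K g (X P) (h P)) (sg K g (Y P)) (bd K g (Y P) (h P)) =
        notchB (ee1 P) (bb1 P) (ee2 P) (bb2 P) := by
    intro g hg P hP hb
    rw [(eq1 g hg P hP hb.1).1, (eq1 g hg P hP hb.1).2, (eq2 g hg P hP hb.2).1,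
      (eq2 g hg P hP hb.2).2]
  have stage_of : ∀ g ≤ n, ∀ P ∈ S, on1 g ∧ on2 g → ∀ j,
      stageB j (sg K g (X P)) (bd K g (X P) (h P)) (sg K g (Y P)) (bd K g (Y P) (h P)) =
        stageB j (ee1 P) (bb1 P) (ee2 P) (bb2 P) := by
    intro g hg P hP hb j
    rw [(eq1 g hg P hP hb.1).1, (eq1 g hg P hP hb.1).2, (eq2 g hg P hP hb.2).1,
      (eq2 g hg P hP hb.2).2]
  have stage_n : ∀ P ∈ S, ∀ j,
      stageB j (sg K n (X P)) (bd K n (X P) (h P)) (sg K n (Y P)) (bd K n (Y P) (h P)) =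
        stageB j (ee1 P) (bb1 P) (ee2 P) (bb2 P) := by
    intro P hP j
    have a1 : bd K n (X P) (h P) = bb1 P ∧ (bb1 P = 6 ∨ sg K n (X P) = ee1 P) := by
      by_cases h1 : on1 n
      · exact ⟨(eq1 n le_rfl P hP h1).1, Or.inr (eq1 n le_rfl P hP h1).2⟩
      · exact ⟨(six1 n le_rfl P hP h1).trans (far1 h1 P hP).symm, Or.inl (far1 h1 P hP)⟩
    have a2 : bd K n (Y P) (h P) = bb2 P ∧ (bb2 P = 6 ∨ sg K n (Y P) = ee2 P) := by
      by_cases h2 : on2 n
      · exact ⟨(eq2 n le_rfl P hP h2).1, Or.inr (eq2 n le_rfl P hP h2).2⟩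
      · exact ⟨(six2 n le_rfl P hP h2).trans (far2 h2 P hP).symm, Or.inl (far2 h2 P hP)⟩
    rw [a1.1, a2.1]
    exact stageB_congr a1.2 a2.2
  have big : ∀ P ∈ S, ∀ g, n < g → ¬ New K (X P) (Y P) (h P) g := by
    intro P hP g hg hc
    have := New_le hc
    have := (hT P hP).2
    omega
  have old : ∀ P ∈ S, ∀ g, g < n → (New K (X P) (Y P) (h P) g ↔
      stageB 3 (sg K g (X P)) (bd K g (X P) (h P)) (sg K g (Y P)) (bd K g (Y P) (h P)) = true ∧
      notchB (sg K (g - 1) (X P)) (bd K (g - 1) (X P) (h P)) (sg K (g - 1) (Y P))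
        (bd K (g - 1) (Y P) (h P)) = false) := by
    intro P hP g hg
    unfold New
    rw [stageB_three (by have := (hT P hP).1; omega)]
  have new_of_not : ∀ P ∈ S, ∀ g, g < n → ¬ (on1 g ∧ on2 g) → New K (X P) (Y P) (h P) g := by
    intro P hP g hg hb
    rw [old P hP g hg]
    exact ⟨stageB_six (six g hg.le P hP hb),
      notchB_six (six (g - 1) (by omega) P hP (anti _ _ (by omega) hb))⟩
  have same : ∀ P ∈ S, ∀ Q ∈ S, ∀ g ≤ n, gen K (X P) (Y P) (h P) = g →
      gen K (X Q) (Y Q) (h Q) = g → (on1 g → ee1 P = ee1 Q) → (on2 g → ee2 P = ee2 Q) →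
      Lam K (X P) (Y P) (h P) = Lam K (X Q) (Y Q) (h Q) := by
    intro P hP Q hQ g hg e1 e2 a1 a2
    unfold Lam
    rw [e1, e2, ix1 g hg P hP Q hQ a1, ix2 g hg P hP Q hQ a2]
  have hj0 : T1 - 3 * n - 8 ∈ [(0 : ℤ), 1, 2] := by
    simp only [List.mem_cons, List.not_mem_nil, or_false]
    omega
  have hj : ∀ P ∈ S, tm K (h P) - 3 * n - 7 = T1 - 3 * n - 8 ∨
      tm K (h P) - 3 * n - 7 = T1 - 3 * n - 8 + 1 := by
    intro P hP
    have := hT P hP
    omega
  by_cases hA : on1 (n - 1) ∧ on2 (n - 1)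
  swap
  · -- case A
    have gA : ∀ P ∈ S,
        (stageB (tm K (h P) - 3 * n - 7) (ee1 P) (bb1 P) (ee2 P) (bb2 P) = true ∧
          gen K (X P) (Y P) (h P) = n) ∨
        (stageB (tm K (h P) - 3 * n - 7) (ee1 P) (bb1 P) (ee2 P) (bb2 P) = false ∧
          gen K (X P) (Y P) (h P) = n - 1) := by
      intro P hP
      cases hs : stageB (tm K (h P) - 3 * n - 7) (ee1 P) (bb1 P) (ee2 P) (bb2 P)
      · refine Or.inr ⟨rfl, gen_eq (new_of_not P hP _ (by omega) hA) fun g' hg' hc => ?_⟩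
        rcases eq_or_lt_of_le (show n ≤ g' by omega) with rfl | hlt
        · have := hc.1
          rw [stage_n P hP, hs] at this
          exact Bool.false_ne_true this
        · exact big P hP g' hlt hc
      · refine Or.inl ⟨rfl, gen_eq ⟨by rw [stage_n P hP, hs],
          notchB_six (six (n - 1) (by omega) P hP hA)⟩ (big P hP)⟩
    refine encard_le_three S _
      (fun P => absA (decide (on1 (n - 1))) (decide (on2 (n - 1))) (tm K (h P) - 3 * n - 7)
        (ee1 P) (bb1 P) (ee2 P) (bb2 P)) _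
      (chk _ (pair_mem hA) _ hj0 m1 hm1 m2 hm2).1
      (fun P hP => mem_labs (hj P hP) (md1 P hP) (md2 P hP)) ?_
    intro P hP Q hQ he
    unfold absA at he
    rcases gA P hP with ⟨s1, g1⟩ | ⟨s1, g1⟩ <;> rcases gA Q hQ with ⟨s2, g2⟩ | ⟨s2, g2⟩ <;>
      simp only [s1, s2, if_true, Bool.false_eq_true, if_false, Prod.mk.injEq] at he
    · exact same P hP Q hQ n le_rfl g1 g2 (fun _ => he.2.1) (fun _ => he.2.2)
    · omega
    · omega
    · exact same P hP Q hQ (n - 1) (by omega) g1 g2 (or_not_eq he.2.1) (or_not_eq he.2.2)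
  by_cases hB : on1 (n - 2) ∧ on2 (n - 2)
  swap
  · -- case B
    have newn : ∀ P ∈ S, New K (X P) (Y P) (h P) n ↔
        (stageB (tm K (h P) - 3 * n - 7) (ee1 P) (bb1 P) (ee2 P) (bb2 P) &&
          !notchB (ee1 P) (bb1 P) (ee2 P) (bb2 P)) = true := by
      intro P hP
      unfold New
      rw [stage_n P hP, notch_of (n - 1) (by omega) P hP hA]
      simp
    have newn1 : ∀ P ∈ S, New K (X P) (Y P) (h P) (n - 1) ↔
        stageB 3 (ee1 P) (bb1 P) (ee2 P) (bb2 P) = true := by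
      intro P hP
      rw [old P hP _ (by omega), stage_of (n - 1) (by omega) P hP hA,
        notchB_six (six (n - 1 - 1) (by omega) P hP (by rw [show n - 1 - 1 = n - 2 by ring]; exact hB))]
      simp
    have gB : ∀ P ∈ S,
        ((stageB (tm K (h P) - 3 * n - 7) (ee1 P) (bb1 P) (ee2 P) (bb2 P) &&
          !notchB (ee1 P) (bb1 P) (ee2 P) (bb2 P)) = true ∧ gen K (X P) (Y P) (h P) = n) ∨
        ((stageB (tm K (h P) - 3 * n - 7) (ee1 P) (bb1 P) (ee2 P) (bb2 P) &&
          !notchB (ee1 P) (bb1 P) (ee2 P) (bb2 P)) = false ∧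
          stageB 3 (ee1 P) (bb1 P) (ee2 P) (bb2 P) = true ∧ gen K (X P) (Y P) (h P) = n - 1) ∨
        ((stageB (tm K (h P) - 3 * n - 7) (ee1 P) (bb1 P) (ee2 P) (bb2 P) &&
          !notchB (ee1 P) (bb1 P) (ee2 P) (bb2 P)) = false ∧
          stageB 3 (ee1 P) (bb1 P) (ee2 P) (bb2 P) = false ∧ gen K (X P) (Y P) (h P) = n - 2) := by
      intro P hP
      cases hs : (stageB (tm K (h P) - 3 * n - 7) (ee1 P) (bb1 P) (ee2 P) (bb2 P) &&
          !notchB (ee1 P) (bb1 P) (ee2 P) (bb2 P))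
      · right
        have hn : ¬ New K (X P) (Y P) (h P) n := by
          rw [newn P hP, hs]; simp
        cases hs3 : stageB 3 (ee1 P) (bb1 P) (ee2 P) (bb2 P)
        · refine Or.inr ⟨rfl, rfl, gen_eq (new_of_not P hP _ (by omega) hB) fun g' hg' hc => ?_⟩
          rcases (show g' = n - 1 ∨ g' = n ∨ n < g' by omega) with rfl | rfl | hlt
          · rw [newn1 P hP, hs3] at hc
            exact Bool.false_ne_true hc
          · exact hn hc
          · exact big P hP g' hlt hc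
        · refine Or.inl ⟨rfl, rfl, gen_eq ((newn1 P hP).mpr hs3) fun g' hg' hc => ?_⟩
          rcases (show g' = n ∨ n < g' by omega) with rfl | hlt
          · exact hn hc
          · exact big P hP g' hlt hc
      · exact Or.inl ⟨rfl, gen_eq ((newn P hP).mpr hs) (big P hP)⟩
    refine encard_le_three S _
      (fun P => absB (decide (on1 (n - 2))) (decide (on2 (n - 2))) (tm K (h P) - 3 * n - 7)
        (ee1 P) (bb1 P) (ee2 P) (bb2 P)) _
      (chk _ (pair_mem hB) _ hj0 m1 hm1 m2 hm2).2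
      (fun P hP => mem_labs (hj P hP) (md1 P hP) (md2 P hP)) ?_
    intro P hP Q hQ he
    unfold absB at he
    rcases gB P hP with ⟨s1, g1⟩ | ⟨s1, t1, g1⟩ | ⟨s1, t1, g1⟩ <;>
      rcases gB Q hQ with ⟨s2, g2⟩ | ⟨s2, t2, g2⟩ | ⟨s2, t2, g2⟩ <;>
      simp only [*, if_true, Bool.false_eq_true, if_false, Prod.mk.injEq] at he
    · exact same P hP Q hQ n le_rfl g1 g2 (fun _ => he.2.1) (fun _ => he.2.2)
    · omega
    · omega
    · omega
    · exact same P hP Q hQ (n - 1) (by omega) g1 g2 (fun _ => he.2.1) (fun _ => he.2.2)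
    · omega
    · omega
    · omega
    · exact same P hP Q hQ (n - 2) (by omega) g1 g2 (or_not_eq he.2.1) (or_not_eq he.2.2)
  · -- case C
    obtain ⟨b, hb, hbmin⟩ := Int.exists_least_of_bdd (P := fun g => on1 g ∧ on2 g)
      ⟨k1, fun g hg => bir1 g hg.1⟩ ⟨_, hB⟩
    have hbn : b ≤ n - 2 := hbmin _ hB
    have hb1 : ¬ (on1 (b - 1) ∧ on2 (b - 1)) := fun hc => by
      have := hbmin _ hc
      omega
    have up : ∀ g, b ≤ g → on1 g ∧ on2 g := fun g hg => ⟨mono1 _ _ hg hb.1, mono2 _ _ hg hb.2⟩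
    have newb : ∀ P ∈ S, New K (X P) (Y P) (h P) b ↔
        stageB 3 (ee1 P) (bb1 P) (ee2 P) (bb2 P) = true := by
      intro P hP
      rw [old P hP _ (by omega), stage_of b (by omega) P hP hb,
        notchB_six (six (b - 1) (by omega) P hP hb1)]
      simp
    have nonew : ∀ P ∈ S, notchB (ee1 P) (bb1 P) (ee2 P) (bb2 P) = true → ∀ g, b < g →
        ¬ New K (X P) (Y P) (h P) g := by
      intro P hP hn g hg hc
      rcases le_or_gt g n with hgn | hgn
      · have := hc.2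
        rw [notch_of (g - 1) (by omega) P hP (up _ (by omega)), hn] at this
        exact Bool.noConfusion this
      · exact big P hP g hgn hc
    have corner : ∀ P ∈ S, ∀ g, n - 1 ≤ g → g ≤ n → gen K (X P) (Y P) (h P) = g →
        Lam K (X P) (Y P) (h P) = Sum.inr ((w1, ee1 P), (w2, ee2 P)) := by
      intro P hP g hg1 hg2 hgen
      have o := up (g - 1) (by omega)
      have hmg := ms_anti hK hg2
      unfold Lam lab
      rw [hgen, cd_near hK (wG1 _ o.1) ((cl1 _ o.1 P hP).1.trans_le hmg),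
        cd_near hK (wG2 _ o.2) ((cl2 _ o.2 P hP).1.trans_le hmg), (cl1 _ o.1 P hP).2,
        (cl2 _ o.2 P hP).2]
    have gC : ∀ P ∈ S,
        ((stageB 3 (ee1 P) (bb1 P) (ee2 P) (bb2 P) &&
          !notchB (ee1 P) (bb1 P) (ee2 P) (bb2 P)) = true ∧
          Lam K (X P) (Y P) (h P) = Sum.inr ((w1, ee1 P), (w2, ee2 P))) ∨
        ((stageB 3 (ee1 P) (bb1 P) (ee2 P) (bb2 P) &&
          !notchB (ee1 P) (bb1 P) (ee2 P) (bb2 P)) = false ∧
          stageB 3 (ee1 P) (bb1 P) (ee2 P) (bb2 P) = true ∧ gen K (X P) (Y P) (h P) = b) ∨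
        ((stageB 3 (ee1 P) (bb1 P) (ee2 P) (bb2 P) &&
          !notchB (ee1 P) (bb1 P) (ee2 P) (bb2 P)) = false ∧
          stageB 3 (ee1 P) (bb1 P) (ee2 P) (bb2 P) = false ∧ gen K (X P) (Y P) (h P) = b - 1) := by
      intro P hP
      cases hn : notchB (ee1 P) (bb1 P) (ee2 P) (bb2 P)
      · left
        have hs := stage_of_not_notch hn
        refine ⟨by simp [hs], ?_⟩
        by_cases hc : New K (X P) (Y P) (h P) n
        · exact corner P hP n (by omega) le_rfl (gen_eq hc (big P hP))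
        · refine corner P hP (n - 1) le_rfl (by omega) (gen_eq ?_ fun g' hg' hc' => ?_)
          · rw [old P hP _ (by omega), stage_of (n - 1) (by omega) P hP (up _ (by omega)),
              notch_of (n - 1 - 1) (by omega) P hP (up _ (by omega))]
            exact ⟨hs, hn⟩
          · rcases (show g' = n ∨ n < g' by omega) with rfl | hlt
            · exact hc hc'
            · exact big P hP g' hlt hc'
      · right
        cases hs3 : stageB 3 (ee1 P) (bb1 P) (ee2 P) (bb2 P)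
        · refine Or.inr ⟨rfl, rfl, gen_eq (new_of_not P hP _ (by omega) hb1) fun g' hg' hc => ?_⟩
          rcases (show g' = b ∨ b < g' by omega) with rfl | hlt
          · rw [newb P hP, hs3] at hc
            exact Bool.false_ne_true hc
          · exact nonew P hP hn g' hlt hc
        · exact Or.inl ⟨rfl, rfl, gen_eq ((newb P hP).mpr hs3) (nonew P hP hn)⟩
    refine encard_le_three S _
      (fun P => absB (decide (on1 (b - 1))) (decide (on2 (b - 1))) 3
        (ee1 P) (bb1 P) (ee2 P) (bb2 P)) _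
      (chk _ (pair_mem hb1) 2 (by simp) m1 hm1 m2 hm2).2
      (fun P hP => mem_labs (Or.inr (by norm_num)) (md1 P hP) (md2 P hP)) ?_
    intro P hP Q hQ he
    unfold absB at he
    rcases gC P hP with ⟨s1, g1⟩ | ⟨s1, t1, g1⟩ | ⟨s1, t1, g1⟩ <;>
      rcases gC Q hQ with ⟨s2, g2⟩ | ⟨s2, t2, g2⟩ | ⟨s2, t2, g2⟩ <;>
      (rw [s1, s2] at he; simp only [*, if_true, Bool.false_eq_true, if_false, Prod.mk.injEq] at he)
    · rw [g1, g2, he.2.1, he.2.2]
    · omega
    · omega
    · omega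
    · exact same P hP Q hQ b (by omega) g1 g2 (fun _ => he.2.1) (fun _ => he.2.2)
    · omega
    · omega
    · omega
    · exact same P hP Q hQ (b - 1) (by omega) g1 g2 (or_not_eq he.2.1) (or_not_eq he.2.2)

end Pool.Agent.H229Z.Asd
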